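import Pool.Agent.Lib.MP_211c6f_gt.Fan

set_option autoImplicit false
open Filter Topology Set

namespace Pool.Agent.Lelek

theorem seg_preconn (p : L) (s : Set unitInterval) (hs : IsPreconnected s) :
    IsPreconnected ((fun r => sc r p) '' s) :=
  hs.image _ (sc_cont p).continuousOn

theorem range_seg_preconn (p : L) : IsPreconnected (range fun r => sc r p) := by
  rw [← image_univ]
  exact seg_preconn p univ isPreconnected_univ

theorem between {K : Set L} (hK : IsClosed K) (hc : IsPreconnected K) {q : L} (hq : q ∈ K)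
    {r0 r : unitInterval} (h0 : sc r0 q ∈ K) (hr : r0 ≤ r) : sc r q ∈ K := by
  by_contra h
  have := (conn_key hK hc hq h h0).2
  rw [hgt_sc] at this
  have h2 : (r0 : ℝ) ≤ r := hr
  have h3 := hgt_nonneg q
  nlinarith

theorem unicoherent_aux {K M : Set L} (hK : IsClosed K) (hKc : IsPreconnected K)
    (hM : IsClosed M) (hMc : IsPreconnected M) {p q : L} (hp : p ∈ K ∩ M) (hq : q ∈ K ∩ M)
    (hd : dir p = dir q) (hle : hgt p ≤ hgt q) :
    ∃ t ⊆ K ∩ M, p ∈ t ∧ q ∈ t ∧ IsPreconnected t := by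
  rcases (hgt_nonneg q).lt_or_eq with h0 | h0
  · have hr : hgt p / hgt q ∈ Icc (0 : ℝ) 1 :=
      ⟨div_nonneg (hgt_nonneg p) h0.le, (div_le_one h0).mpr hle⟩
    set r0 : unitInterval := ⟨hgt p / hgt q, hr⟩ with hr0
    have hsc : sc r0 q = p := by
      have hh : hgt (sc r0 q) = hgt p := by
        rw [hgt_sc]
        show hgt p / hgt q * hgt q = hgt p
        field_simp
      rcases (hgt_nonneg p).lt_or_eq with h1 | h1
      · refine ext' hh ?_
        rw [dir_sc, hd]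
        rw [hgt_sc] at hh
        rw [hh]; exact h1
      · rw [eq_v (h1.symm), eq_v (hh.trans h1.symm)]
    refine ⟨(fun r => sc r q) '' Icc r0 1, ?_, ⟨r0, ⟨le_rfl, r0.2.2⟩, hsc⟩,
      ⟨1, ⟨r0.2.2, le_rfl⟩, sc_one q⟩, seg_preconn q _ isPreconnected_Icc⟩
    rintro _ ⟨r, hr, rfl⟩
    refine ⟨between hK hKc hq.1 (r0 := r0) ?_ hr.1, between hM hMc hq.2 (r0 := r0) ?_ hr.1⟩
    · rw [hsc]; exact hp.1
    · rw [hsc]; exact hp.2
  · have h1 : q = v := eq_v h0.symm
    have h2 : p = v := eq_v (le_antisymm (by rw [h0]; exact hle) (hgt_nonneg p))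
    refine ⟨{v}, ?_, by rw [h2]; rfl, by rw [h1]; rfl, isPreconnected_singleton⟩
    rintro _ rfl
    rw [← h1]; exact hq

theorem unicoherent (K M : Set L) (hK : IsClosed K) (hKc : IsConnected K)
    (hM : IsClosed M) (hMc : IsConnected M) : IsPreconnected (K ∩ M) := by
  refine isPreconnected_of_forall_pair fun p hp q hq => ?_
  by_cases hd : dir p = dir q
  · rcases le_total (hgt p) (hgt q) with h | h
    · exact unicoherent_aux hK hKc.isPreconnected hM hMc.isPreconnected hp hq hd h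
    · obtain ⟨t, h1, h2, h3, h4⟩ :=
        unicoherent_aux hK hKc.isPreconnected hM hMc.isPreconnected hq hp hd.symm h
      exact ⟨t, h1, h3, h2, h4⟩
  · refine ⟨(range fun r => sc r p) ∪ (range fun r => sc r q), ?_, Or.inl ⟨1, sc_one p⟩,
      Or.inr ⟨1, sc_one q⟩, ?_⟩
    · rintro _ (⟨r, rfl⟩ | ⟨r, rfl⟩)
      · constructor
        · by_contra h
          exact hd (conn_key hK hKc.isPreconnected hp.1 h hq.1).1.symm
        · by_contra h
          exact hd (conn_key hM hMc.isPreconnected hp.2 h hq.2).1.symm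
      · constructor
        · by_contra h
          exact hd (conn_key hK hKc.isPreconnected hq.1 h hp.1).1
        · by_contra h
          exact hd (conn_key hM hMc.isPreconnected hq.2 h hp.2).1
    · exact IsPreconnected.union v ⟨0, sc_zero p⟩ ⟨0, sc_zero q⟩ (range_seg_preconn p)
        (range_seg_preconn q)

theorem arc_range {γ : unitInterval → L} (hc : Continuous γ) (hi : Function.Injective γ)
    (h0 : γ 0 = v) {x : L} (h1 : γ 1 = x) : range γ = range fun r => sc r x := by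
  have hcl : IsClosedMap γ := hc.isClosedMap
  have hpre : IsPreconnected (range γ) := isPreconnected_range hc
  have hsub : (range fun r => sc r x) ⊆ range γ := by
    rintro _ ⟨r, rfl⟩
    by_contra h
    have := (conn_key hcl.isClosed_range hpre ⟨1, h1⟩ h ⟨0, h0⟩).2
    rw [hgt_v] at this
    have h2 := r.2.1
    have h3 := hgt_nonneg x
    nlinarith [mul_nonneg h2 h3]
  apply Subset.antisymm _ hsub
  have h2 : IsPreconnected (γ ⁻¹' (range fun r => sc r x)) :=
    (range_seg_preconn x).preimage_of_isClosedMap hi hcl hsub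
  have h3 : Icc (0 : unitInterval) 1 ⊆ γ ⁻¹' (range fun r => sc r x) :=
    h2.Icc_subset ⟨0, by rw [h0]; exact sc_zero x⟩ ⟨1, by rw [h1]; exact sc_one x⟩
  rintro _ ⟨r, rfl⟩
  exact h3 ⟨r.2.1, r.2.2⟩

theorem dist_sc_le (r : unitInterval) (p q : L) : dist (sc r p) (sc r q) ≤ dist p q := by
  have h1 := r.2.1
  have h2 := r.2.2
  show dist (sc r p).1 (sc r q).1 ≤ dist p.1 q.1
  rw [Prod.dist_eq, Prod.dist_eq]
  have key : ∀ a b : ℝ, dist ((r : ℝ) * a) (r * b) ≤ dist a b := by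
    intro a b
    rw [Real.dist_eq, Real.dist_eq, ← mul_sub, abs_mul, abs_of_nonneg h1]
    have := abs_nonneg (a - b)
    nlinarith
  exact max_le_max (key _ _) (key _ _)

theorem hausdorff_seg_le (p q : L) :
    Metric.hausdorffDist (range fun r => sc r p) (range fun r => sc r q) ≤ dist p q := by
  refine Metric.hausdorffDist_le_of_mem_dist dist_nonneg ?_ ?_
  · rintro _ ⟨r, rfl⟩
    exact ⟨sc r q, ⟨r, rfl⟩, dist_sc_le r p q⟩
  · rintro _ ⟨r, rfl⟩
    exact ⟨sc r p, ⟨r, rfl⟩, by rw [dist_comm p q]; exact dist_sc_le r q p⟩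

theorem arc_set {x : L} {T : Set L} (h : (x = v ∧ T = {v}) ∨ ∃ γ : unitInterval → L,
    Continuous γ ∧ Function.Injective γ ∧ γ 0 = v ∧ γ 1 = x ∧ range γ = T) :
    T = range fun r => sc r x := by
  rcases h with ⟨rfl, rfl⟩ | ⟨γ, h1, h2, h3, h4, rfl⟩
  · ext z
    constructor
    · rintro rfl; exact ⟨0, sc_v 0⟩
    · rintro ⟨r, rfl⟩; exact sc_v r
  · exact arc_range h1 h2 h3 h4

theorem smooth (x : ℕ → L) (y : L) (S : ℕ → Set L) (T : Set L)
    (hx : Tendsto x atTop (𝓝 y))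
    (hS : ∀ n, (x n = v ∧ S n = {v}) ∨ ∃ γ : unitInterval → L, Continuous γ ∧
        Function.Injective γ ∧ γ 0 = v ∧ γ 1 = x n ∧ Set.range γ = S n)
    (hT : (y = v ∧ T = {v}) ∨ ∃ γ : unitInterval → L, Continuous γ ∧
        Function.Injective γ ∧ γ 0 = v ∧ γ 1 = y ∧ Set.range γ = T) :
    Tendsto (fun n => Metric.hausdorffDist (S n) T) atTop (𝓝 0) := by
  have hT' := arc_set hT
  have hS' : ∀ n, S n = range fun r => sc r (x n) := fun n => arc_set (hS n)
  refine squeeze_zero (g := fun n => dist (x n) y) (fun n => Metric.hausdorffDist_nonneg) ?_ ?_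
  · intro n
    rw [hS' n, hT']
    exact hausdorff_seg_le _ _
  · exact tendsto_iff_dist_tendsto_zero.mp hx

/-- Three arcs emanating from `w`, otherwise disjoint. -/
def Ram {Y : Type*} [TopologicalSpace Y] (w : Y) : Prop :=
  ∃ γ : Fin 3 → unitInterval → Y,
    (∀ i, Continuous (γ i) ∧ Function.Injective (γ i) ∧ γ i 0 = w) ∧
      ∀ i j, i ≠ j → Set.range (γ i) ∩ Set.range (γ j) = {w}

theorem Ram.map {Y Z : Type*} [TopologicalSpace Y] [TopologicalSpace Z] (f : Y ≃ₜ Z) {w : Y}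
    (h : Ram w) : Ram (f w) := by
  obtain ⟨γ, h1, h2⟩ := h
  refine ⟨fun i r => f (γ i r), fun i => ⟨f.continuous.comp (h1 i).1,
    f.injective.comp (h1 i).2.1, by simp [(h1 i).2.2]⟩, fun i j hij => ?_⟩
  ext z
  constructor
  · rintro ⟨⟨r, hr⟩, ⟨s, hs⟩⟩
    have h3 : γ i r = γ j s := f.injective (hr.trans hs.symm)
    have h4 : γ i r ∈ Set.range (γ i) ∩ Set.range (γ j) := ⟨⟨r, rfl⟩, ⟨s, h3.symm⟩⟩
    rw [h2 i j hij] at h4
    have h5 : γ i r = w := h4
    rw [← hr]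
    show f (γ i r) = f w
    rw [h5]
  · rintro rfl
    exact ⟨⟨0, by simp [(h1 i).2.2]⟩, ⟨0, by simp [(h1 j).2.2]⟩⟩

/-- Criterion excluding ramification. -/
theorem not_ram {Y : Type*} [TopologicalSpace Y] {w : Y} {U F : Set Y} (hU : IsOpen U)
    (hw : w ∈ U) {G : Y → ℝ} (hG : ContinuousOn G F) (hi : InjOn G F)
    (hP : ∀ P : Set Y, P ⊆ U → IsPreconnected P → w ∈ P → P ⊆ F) : ¬ Ram w := by
  rintro ⟨γ, h1, h2⟩
  -- initial pieces
  have hδ : ∀ i, ∃ d : unitInterval, 0 < d ∧ γ i '' Icc 0 d ⊆ U := by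
    intro i
    have h3 : γ i ⁻¹' U ∈ 𝓝 (0 : unitInterval) :=
      (hU.preimage (h1 i).1).mem_nhds (by show γ i 0 ∈ U; rw [(h1 i).2.2]; exact hw)
    obtain ⟨ε, hε, hb⟩ := Metric.mem_nhds_iff.mp h3
    have hm : min (ε / 2) 1 ∈ Icc (0 : ℝ) 1 := ⟨by positivity, min_le_right _ _⟩
    refine ⟨⟨min (ε / 2) 1, hm⟩, ?_, ?_⟩
    · show (0 : ℝ) < min (ε / 2) 1
      positivity
    · rintro _ ⟨r, hr, rfl⟩
      apply hb
      rw [Metric.mem_ball]
      have h4 : (r : ℝ) ≤ min (ε / 2) 1 := hr.2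
      have h5 : dist r 0 = (r : ℝ) := by
        show dist (r : ℝ) ((0 : unitInterval) : ℝ) = r
        rw [Real.dist_eq]
        simp [abs_of_nonneg r.2.1]
      rw [h5]
      have := min_le_left (ε / 2) 1
      linarith
  choose d hd0 hdU using hδ
  have hPF : ∀ i, γ i '' Icc 0 (d i) ⊆ F := fun i =>
    hP _ (hdU i) (isPreconnected_Icc.image _ (h1 i).1.continuousOn)
      ⟨0, ⟨le_rfl, (hd0 i).le⟩, (h1 i).2.2⟩
  have hwF : w ∈ F := hPF 0 ⟨0, ⟨le_rfl, (hd0 0).le⟩, (h1 0).2.2⟩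
  have hcon : ∀ i, ContinuousOn (G ∘ γ i) (Icc 0 (d i)) := fun i =>
    hG.comp (h1 i).1.continuousOn (fun r hr => hPF i ⟨r, hr, rfl⟩)
  have hne : ∀ i, G (γ i (d i)) ≠ G w := by
    intro i h
    have h3 := hi (hPF i ⟨d i, ⟨(hd0 i).le, le_rfl⟩, rfl⟩) hwF h
    have h4 : d i = 0 := (h1 i).2.1 (h3.trans (h1 i).2.2.symm)
    exact (hd0 i).ne' h4
  -- same side is impossible
  have hup : ∀ i j, i ≠ j → G w < G (γ i (d i)) → G w < G (γ j (d j)) → False := by
    intro i j hij hi1 hj1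
    set m := min (G (γ i (d i))) (G (γ j (d j))) with hm
    have hm1 : G w < m := lt_min hi1 hj1
    have e1 : m ∈ (G ∘ γ i) '' Icc 0 (d i) := by
      apply intermediate_value_Icc (hd0 i).le (hcon i)
      refine ⟨?_, min_le_left _ _⟩
      show G (γ i 0) ≤ m
      rw [(h1 i).2.2]; exact hm1.le
    have e2 : m ∈ (G ∘ γ j) '' Icc 0 (d j) := by
      apply intermediate_value_Icc (hd0 j).le (hcon j)
      refine ⟨?_, min_le_right _ _⟩
      show G (γ j 0) ≤ m
      rw [(h1 j).2.2]; exact hm1.le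
    obtain ⟨r, hr, hr'⟩ := e1
    obtain ⟨s, hs, hs'⟩ := e2
    have h3 : γ i r = γ j s := hi (hPF i ⟨r, hr, rfl⟩) (hPF j ⟨s, hs, rfl⟩) (hr'.trans hs'.symm)
    have h4 : γ i r ∈ Set.range (γ i) ∩ Set.range (γ j) := ⟨⟨r, rfl⟩, ⟨s, h3.symm⟩⟩
    rw [h2 i j hij] at h4
    have h5 : G (γ i r) = G w := by rw [h4]
    have h6 : G (γ i r) = m := hr'
    linarith
  have hdown : ∀ i j, i ≠ j → G (γ i (d i)) < G w → G (γ j (d j)) < G w → False := by
    intro i j hij hi1 hj1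
    set m := max (G (γ i (d i))) (G (γ j (d j))) with hm
    have hm1 : m < G w := max_lt hi1 hj1
    have e1 : m ∈ (G ∘ γ i) '' Icc 0 (d i) := by
      apply intermediate_value_Icc' (hd0 i).le (hcon i)
      refine ⟨le_max_left _ _, ?_⟩
      show m ≤ G (γ i 0)
      rw [(h1 i).2.2]; exact hm1.le
    have e2 : m ∈ (G ∘ γ j) '' Icc 0 (d j) := by
      apply intermediate_value_Icc' (hd0 j).le (hcon j)
      refine ⟨le_max_right _ _, ?_⟩
      show m ≤ G (γ j 0)
      rw [(h1 j).2.2]; exact hm1.le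
    obtain ⟨r, hr, hr'⟩ := e1
    obtain ⟨s, hs, hs'⟩ := e2
    have h3 : γ i r = γ j s := hi (hPF i ⟨r, hr, rfl⟩) (hPF j ⟨s, hs, rfl⟩) (hr'.trans hs'.symm)
    have h4 : γ i r ∈ Set.range (γ i) ∩ Set.range (γ j) := ⟨⟨r, rfl⟩, ⟨s, h3.symm⟩⟩
    rw [h2 i j hij] at h4
    have h5 : G (γ i r) = G w := by rw [h4]
    have h6 : G (γ i r) = m := hr'
    linarith
  rcases lt_or_gt_of_ne (hne 0) with a | a <;> rcases lt_or_gt_of_ne (hne 1) with b | b <;>
    rcases lt_or_gt_of_ne (hne 2) with c | c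
  · exact hdown 0 1 (by decide) a b
  · exact hdown 0 1 (by decide) a b
  · exact hdown 0 2 (by decide) a c
  · exact hup 1 2 (by decide) b c
  · exact hdown 1 2 (by decide) b c
  · exact hup 0 2 (by decide) a c
  · exact hup 0 1 (by decide) a b
  · exact hup 0 1 (by decide) a b

theorem not_ram_L {w : L} (h : w ≠ v) : ¬ Ram w := by
  refine not_ram (U := {p | 0 < hgt p}) (F := {p | 0 < hgt p ∧ dir p = dir w})
    (isOpen_lt continuous_const hgt_cont) (hgt_pos_iff.mpr h) (G := hgt) hgt_cont.continuousOn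
    ?_ ?_
  · rintro p ⟨_, hp⟩ q ⟨_, hq⟩ h
    exact ext' h (hp.trans hq.symm)
  · intro P hPU hP hw p hp
    exact ⟨hPU hp, dir_const hP (fun z hz => hPU hz) hp hw⟩

/-- tops of legs -/
def IsTop (p : L) : Prop := 0 < hgt p ∧ ∀ q : L, 0 < hgt q → dir q = dir p → hgt q ≤ hgt p

theorem IsTop.endpoint {p : L} (hp : IsTop p) {γ : unitInterval → L} (hc : Continuous γ)
    (hi : Function.Injective γ) (hr : p ∈ range γ) : p = γ 0 ∨ p = γ 1 := by
  obtain ⟨s, rfl⟩ := hr
  by_contra hcon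
  push Not at hcon
  have hs0 : s ≠ 0 := by rintro rfl; exact hcon.1 rfl
  have hs1 : s ≠ 1 := by rintro rfl; exact hcon.2 rfl
  have hs0' : (0 : ℝ) < s := lt_of_le_of_ne s.2.1 (fun h => hs0 (Subtype.ext h.symm))
  have hs1' : (s : ℝ) < 1 := lt_of_le_of_ne s.2.2 (fun h => hs1 (Subtype.ext h))
  have h3 : (fun r => hgt (γ r)) ⁻¹' Ioi 0 ∈ 𝓝 s :=
    (isOpen_Ioi.preimage (hgt_cont.comp hc)).mem_nhds hp.1
  obtain ⟨ε, hε, hb⟩ := Metric.mem_nhds_iff.mp h3
  set η := min (ε / 2) (min s (1 - s)) with hη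
  have hη0 : 0 < η := lt_min (by positivity) (lt_min hs0' (by linarith))
  have hη1 : η ≤ ε / 2 := min_le_left _ _
  have hη2 : η ≤ s := (min_le_right _ _).trans (min_le_left _ _)
  have hη3 : η ≤ 1 - s := (min_le_right _ _).trans (min_le_right _ _)
  set a : unitInterval := ⟨s - η, by constructor <;> linarith⟩ with ha
  set b : unitInterval := ⟨s + η, by constructor <;> linarith⟩ with hb'
  have has : a < s := by show (s : ℝ) - η < s; linarith
  have hsb : s < b := by show (s : ℝ) < s + η; linarith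
  have hpos : ∀ r ∈ Icc a b, 0 < hgt (γ r) := by
    intro r hr
    apply hb
    rw [Metric.mem_ball]
    show dist (r : ℝ) s < ε
    have h4 : (s : ℝ) - η ≤ r := hr.1
    have h5 : (r : ℝ) ≤ s + η := hr.2
    rw [Real.dist_eq, abs_lt]
    constructor <;> linarith
  have hpre : IsPreconnected (γ '' Icc a b) := isPreconnected_Icc.image _ hc.continuousOn
  have hdir : ∀ r ∈ Icc a b, dir (γ r) = dir (γ s) := by
    intro r hr
    refine dir_const hpre ?_ ⟨r, hr, rfl⟩ ⟨s, ⟨has.le, hsb.le⟩, rfl⟩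
    rintro _ ⟨r', hr', rfl⟩
    exact hpos r' hr'
  have hlt : ∀ r ∈ Icc a b, r ≠ s → hgt (γ r) < hgt (γ s) := by
    intro r hr hne
    refine lt_of_le_of_ne (hp.2 _ (hpos r hr) (hdir r hr)) fun h => hne ?_
    exact hi (ext' h (hdir r hr))
  have haI : a ∈ Icc a b := ⟨le_rfl, (has.trans hsb).le⟩
  have hbI : b ∈ Icc a b := ⟨(has.trans hsb).le, le_rfl⟩
  set m := max (hgt (γ a)) (hgt (γ b)) with hm
  have hm1 : m < hgt (γ s) := max_lt (hlt a haI has.ne) (hlt b hbI hsb.ne')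
  have hcc : Continuous fun r => hgt (γ r) := hgt_cont.comp hc
  obtain ⟨r1, hr1, hr1'⟩ := intermediate_value_Icc has.le hcc.continuousOn
    ⟨le_max_left _ _, hm1.le⟩
  obtain ⟨r2, hr2, hr2'⟩ := intermediate_value_Icc' hsb.le hcc.continuousOn
    ⟨le_max_right _ _, hm1.le⟩
  have hr1I : r1 ∈ Icc a b := ⟨hr1.1, hr1.2.trans hsb.le⟩
  have hr2I : r2 ∈ Icc a b := ⟨has.le.trans hr2.1, hr2.2⟩
  have h12 : r1 = r2 :=
    hi (ext' (hr1'.trans hr2'.symm) ((hdir r1 hr1I).trans (hdir r2 hr2I).symm))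
  have h1s : r1 = s := le_antisymm hr1.2 (by rw [h12]; exact hr2.1)
  rw [h1s] at hr1'
  exact absurd hr1' hm1.ne'

end Pool.Agent.Lelek
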