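import Mathlib

set_option autoImplicit false
open Filter Topology Set

namespace Pool.Agent.Lelek

theorem ofDigits_zero_imp {b : ℕ} {z : ℕ → Fin b} (h : Real.ofDigits z = 0) (i : ℕ) :
    (z i : ℕ) = 0 := by
  have hs : HasSum (Real.ofDigitsTerm z) 0 := by
    have := (Real.summable_ofDigitsTerm (digits := z)).hasSum
    rw [Real.ofDigits] at h
    rwa [h] at this
  rw [hasSum_zero_iff_of_nonneg (fun _ => Real.ofDigitsTerm_nonneg)] at hs
  have h1 : Real.ofDigitsTerm z i = 0 := congrFun hs i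
  rw [Real.ofDigitsTerm] at h1
  have hb : 0 < b := Fin.pos (z 0)
  have hb' : (0 : ℝ) < b := by exact_mod_cast hb
  have h2 : ((b : ℝ) ^ (i + 1))⁻¹ ≠ 0 := by positivity
  have h3 := (mul_eq_zero.mp h1).resolve_right h2
  exact_mod_cast h3

theorem ofDigits_add_rev {b : ℕ} (hb : 1 < b) (z : ℕ → Fin b) :
    Real.ofDigits z + Real.ofDigits (fun i => (z i).rev) = 1 := by
  rw [← Real.ofDigits_const_last_eq_one' hb, Real.ofDigits, Real.ofDigits, Real.ofDigits,
    ← Summable.tsum_add Real.summable_ofDigitsTerm Real.summable_ofDigitsTerm]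
  congr 1
  ext i
  simp only [Real.ofDigitsTerm]
  rw [← add_mul]
  congr 1
  have h1 := (z i).2
  rw [Fin.val_rev]
  have : ((z i : ℕ) : ℝ) + ((b - ((z i : ℕ) + 1) : ℕ) : ℝ) = ((b - 1 : ℕ) : ℝ) := by
    rw [← Nat.cast_add]
    congr 1
    omega
  exact this

theorem ofDigits_one_imp {b : ℕ} (hb : 1 < b) {z : ℕ → Fin b} (h : Real.ofDigits z = 1) (i : ℕ) :
    (z i : ℕ) = b - 1 := by
  have h1 := ofDigits_add_rev hb z
  rw [h] at h1
  have h2 : Real.ofDigits (fun i => (z i).rev) = 0 := by linarith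
  have h3 := ofDigits_zero_imp h2 i
  rw [Fin.val_rev] at h3
  have := (z i).2
  omega

/-- kernel of the digit map -/
theorem ofDigits_eq_imp {b : ℕ} (hb : 1 < b) {x y : ℕ → Fin b} {n : ℕ}
    (hxy : ∀ i < n, x i = y i) (hn : x n < y n) (h : Real.ofDigits x = Real.ofDigits y) :
    ((y n : ℕ) = x n + 1) ∧ ∀ i, n < i → (x i : ℕ) = b - 1 ∧ (y i : ℕ) = 0 := by
  rw [Real.ofDigits_eq_sum_add_ofDigits x (n + 1), Real.ofDigits_eq_sum_add_ofDigits y (n + 1),
    Finset.sum_range_succ, Finset.sum_range_succ] at h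
  have h0 : ∑ i ∈ Finset.range n, Real.ofDigitsTerm x i
      = ∑ i ∈ Finset.range n, Real.ofDigitsTerm y i :=
    Finset.sum_congr rfl fun i hi ↦ by simp [Real.ofDigitsTerm, hxy i (Finset.mem_range.mp hi)]
  rw [h0] at h
  have hb' : (0 : ℝ) < b := by exact_mod_cast (by omega : 0 < b)
  have hp : (0 : ℝ) < ((b : ℝ) ^ (n + 1))⁻¹ := by positivity
  simp only [Real.ofDigitsTerm] at h
  have h1 : ((x n : ℕ) : ℝ) + Real.ofDigits (fun i => x (i + (n + 1)))
      = ((y n : ℕ) : ℝ) + Real.ofDigits (fun i => y (i + (n + 1))) := by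
    have h2 : ((b : ℝ) ^ (n + 1))⁻¹ * (((x n : ℕ) : ℝ) + Real.ofDigits (fun i => x (i + (n + 1))))
      = ((b : ℝ) ^ (n + 1))⁻¹ * (((y n : ℕ) : ℝ) + Real.ofDigits (fun i => y (i + (n + 1)))) := by
      linarith
    exact mul_left_cancel₀ hp.ne' h2
  have hx1 := Real.ofDigits_le_one (fun i => x (i + (n + 1)))
  have hy0 := Real.ofDigits_nonneg (fun i => y (i + (n + 1)))
  have hn' : (x n : ℕ) + 1 ≤ (y n : ℕ) := hn
  have hn'' : ((x n : ℕ) : ℝ) + 1 ≤ ((y n : ℕ) : ℝ) := by exact_mod_cast hn'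
  have hX : Real.ofDigits (fun i => x (i + (n + 1))) = 1 := by linarith
  have hY : Real.ofDigits (fun i => y (i + (n + 1))) = 0 := by linarith
  refine ⟨?_, fun i hi => ?_⟩
  · have : ((y n : ℕ) : ℝ) = ((x n : ℕ) : ℝ) + 1 := by linarith
    exact_mod_cast this
  · obtain ⟨j, rfl⟩ : ∃ j, i = j + (n + 1) := ⟨i - (n + 1), by omega⟩
    exact ⟨ofDigits_one_imp hb hX j, ofDigits_zero_imp hY j⟩

/-- Directions. -/
abbrev Dir := ℕ → Fin 4

/-- The embedding of the direction space in the line. -/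
noncomputable def emb (x : Dir) : ℝ :=
  Real.ofDigits (fun n => (x n).castLE (by norm_num : 4 ≤ 5))

theorem exists_first_diff {α : Type*} {x y : ℕ → α} (h : x ≠ y) :
    ∃ n, (∀ i < n, x i = y i) ∧ x n ≠ y n := by
  classical
  have h' : ∃ n, x n ≠ y n := by
    by_contra hc
    push Not at hc
    exact h (funext hc)
  exact ⟨Nat.find h', fun i hi => not_not.mp (Nat.find_min h' hi), Nat.find_spec h'⟩

theorem emb_inj : Function.Injective emb := by
  have key : ∀ x y : Dir, ∀ n, (∀ i < n, x i = y i) → x n < y n → emb x ≠ emb y := by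
    intro x y n hxy hn h
    have := (ofDigits_eq_imp (b := 5) (by norm_num) (n := n)
      (x := fun n => (x n).castLE (by norm_num : 4 ≤ 5))
      (y := fun n => (y n).castLE (by norm_num : 4 ≤ 5))
      (fun i hi => by simp [hxy i hi]) (by simpa using hn) h).2 (n + 1) (by omega)
    have h2 := (x (n + 1)).2
    simp at this
    omega
  intro x y h
  by_contra hne
  obtain ⟨n, hn, hd⟩ := exists_first_diff hne
  rcases lt_or_gt_of_ne hd with h1 | h1
  · exact key x y n hn h1 h
  · exact key y x n (fun i hi => (hn i hi).symm) h1 h.symm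

theorem emb_cont : Continuous emb := by
  have h : Continuous (fun (x : Dir) (n : ℕ) => (x n).castLE (by norm_num : 4 ≤ 5)) := by
    refine continuous_pi fun n => ?_
    exact (continuous_of_discreteTopology (f := fun a : Fin 4 =>
      a.castLE (by norm_num : 4 ≤ 5))).comp (continuous_apply n)
  exact Real.continuous_ofDigits.comp h

theorem emb_emb : IsClosedEmbedding emb :=
  emb_cont.isClosedEmbedding emb_inj

theorem emb_dist {x y : Dir} {n : ℕ} (h : ∀ i < n, x i = y i) :
    |emb x - emb y| ≤ ((5 : ℝ) ^ n)⁻¹ := by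
  have := Real.abs_ofDigits_sub_ofDigits_le (b := 5) (n := n)
    (x := fun n => (x n).castLE (by norm_num : 4 ≤ 5))
    (y := fun n => (y n).castLE (by norm_num : 4 ≤ 5)) (fun i hi => by simp [h i hi])
  simpa [emb] using this

theorem emb_nonneg (x : Dir) : 0 ≤ emb x := Real.ofDigits_nonneg _
theorem emb_le_one (x : Dir) : emb x ≤ 1 := Real.ofDigits_le_one _

end Pool.Agent.Lelek
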