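import Pool.Agent.Lib.MP_211c6f_gt.Digits

set_option autoImplicit false
open Filter Topology Set

namespace Pool.Agent.Lelek

/-- weight of a letter -/
noncomputable def om (a : Fin 4) : ℝ := if a = 1 ∨ a = 2 then 1 else 0

theorem om_nonneg (a : Fin 4) : 0 ≤ om a := by unfold om; split_ifs <;> norm_num

/-- partial weights -/
noncomputable def S (n : ℕ) (x : Dir) : ℝ := ∑ i ∈ Finset.range n, om (x i) / ((i : ℝ) + 1)

theorem S_nonneg (n : ℕ) (x : Dir) : 0 ≤ S n x :=
  Finset.sum_nonneg fun i _ => div_nonneg (om_nonneg _) (by positivity)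

theorem S_zero (x : Dir) : S 0 x = 0 := by simp [S]

theorem S_succ (n : ℕ) (x : Dir) : S (n + 1) x = S n x + om (x n) / ((n : ℝ) + 1) :=
  Finset.sum_range_succ _ _

theorem S_mono (x : Dir) : Monotone fun n => S n x := by
  refine monotone_nat_of_le_succ fun n => ?_
  rw [S_succ]
  have : 0 ≤ om (x n) / ((n : ℝ) + 1) := div_nonneg (om_nonneg _) (by positivity)
  linarith

theorem S_cont (n : ℕ) : Continuous (S n) := by
  unfold S
  refine continuous_finsetSum _ fun i _ => ?_
  have : Continuous fun x : Dir => om (x i) :=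
    (continuous_of_discreteTopology (f := om)).comp (continuous_apply i)
  exact this.div_const _

/-- The model of the Lelek fan in the plane. -/
def LX : Set (ℝ × ℝ) :=
  {p | ∃ x : Dir, 0 ≤ p.1 ∧ (∀ n, p.1 * (1 + S n x) ≤ 1) ∧ p.2 = p.1 * emb x}

/-- The model as a type. -/
abbrev L : Type := LX

/-- Point with given direction and height. -/
noncomputable def mk (x : Dir) (t : ℝ) (ht : 0 ≤ t) (h : ∀ n, t * (1 + S n x) ≤ 1) : L :=
  ⟨(t, t * emb x), x, ht, h, rfl⟩

/-- height -/
def hgt (p : L) : ℝ := p.1.1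

/-- direction -/
noncomputable def dir (p : L) : Dir := p.2.choose

theorem hgt_nonneg (p : L) : 0 ≤ hgt p := p.2.choose_spec.1

theorem hgt_bound (p : L) (n : ℕ) : hgt p * (1 + S n (dir p)) ≤ 1 := p.2.choose_spec.2.1 n

theorem snd_eq (p : L) : p.1.2 = hgt p * emb (dir p) := p.2.choose_spec.2.2

theorem hgt_le_one (p : L) : hgt p ≤ 1 := by
  have := hgt_bound p 0
  rw [S_zero] at this
  linarith

@[simp] theorem hgt_mk (x : Dir) (t : ℝ) (ht : 0 ≤ t) (h : ∀ n, t * (1 + S n x) ≤ 1) :
    hgt (mk x t ht h) = t := rfl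

theorem dir_eq_of {p : L} {x : Dir} (h0 : 0 < hgt p) (h : p.1.2 = hgt p * emb x) : dir p = x := by
  rw [snd_eq] at h
  exact emb_inj (mul_left_cancel₀ h0.ne' h)

theorem dir_mk (x : Dir) (t : ℝ) (ht : 0 ≤ t) (h : ∀ n, t * (1 + S n x) ≤ 1) (h0 : 0 < t) :
    dir (mk x t ht h) = x := dir_eq_of h0 rfl

theorem ext' {p q : L} (h1 : hgt p = hgt q) (h2 : dir p = dir q) : p = q := by
  apply Subtype.ext
  apply Prod.ext
  · exact h1
  · rw [snd_eq, snd_eq, h1, h2]

/-- top of the fan -/
noncomputable def v : L := mk 0 0 le_rfl (fun n => by simp)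

@[simp] theorem hgt_v : hgt v = 0 := rfl

theorem eq_v {p : L} (h : hgt p = 0) : p = v := by
  apply Subtype.ext
  apply Prod.ext
  · exact h
  · rw [snd_eq, h]; simp [v, mk]

theorem hgt_pos_iff {p : L} : 0 < hgt p ↔ p ≠ v := by
  constructor
  · rintro h rfl; simp at h
  · intro h
    rcases (hgt_nonneg p).lt_or_eq with h1 | h1
    · exact h1
    · exact absurd (eq_v h1.symm) h

theorem hgt_cont : Continuous hgt := continuous_fst.comp continuous_subtype_val

theorem dir_contOn : ContinuousOn dir {p | 0 < hgt p} := by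
  rw [emb_emb.isInducing.continuousOn_iff]
  have h1 : ContinuousOn (fun p : L => p.1.2 / p.1.1) {p | 0 < hgt p} := by
    refine ContinuousOn.div ?_ ?_ ?_
    · exact (continuous_snd.comp continuous_subtype_val).continuousOn
    · exact (continuous_fst.comp continuous_subtype_val).continuousOn
    · intro p hp; exact (ne_of_gt hp)
  refine h1.congr fun p hp => ?_
  have h2 := snd_eq p
  have h3 : (0 : ℝ) < p.1.1 := hp
  show emb (dir p) = p.1.2 / p.1.1
  rw [h2]
  show _ = hgt p * emb (dir p) / hgt p
  rw [mul_div_cancel_left₀ _ (ne_of_gt hp)]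

theorem isCompact_LX : IsCompact LX := by
  set F : Dir × ℝ → ℝ × ℝ := fun q => (q.2, q.2 * emb q.1) with hF
  have hFc : Continuous F := by
    refine Continuous.prodMk continuous_snd ?_
    exact continuous_snd.mul (emb_cont.comp continuous_fst)
  have hK : IsCompact {q : Dir × ℝ | 0 ≤ q.2 ∧ ∀ n, q.2 * (1 + S n q.1) ≤ 1} := by
    refine IsCompact.of_isClosed_subset (isCompact_univ.prod (isCompact_Icc (a := (0:ℝ)) (b := 1)))
      ?_ ?_
    · rw [ofPred_and]
      refine (isClosed_le continuous_const continuous_snd).inter ?_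
      rw [ofPred_forall]
      refine isClosed_iInter fun n => isClosed_le ?_ continuous_const
      exact continuous_snd.mul (continuous_const.add ((S_cont n).comp continuous_fst))
    · rintro ⟨x, t⟩ ⟨h1, h2⟩
      refine ⟨mem_univ _, h1, ?_⟩
      have := h2 0
      rw [S_zero] at this
      simpa using this
  have : LX = F '' {q : Dir × ℝ | 0 ≤ q.2 ∧ ∀ n, q.2 * (1 + S n q.1) ≤ 1} := by
    ext p
    constructor
    · rintro ⟨x, h1, h2, h3⟩
      exact ⟨(x, p.1), ⟨h1, h2⟩, by simp [hF, ← h3]⟩
    · rintro ⟨⟨x, t⟩, ⟨h1, h2⟩, rfl⟩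
      exact ⟨x, h1, h2, rfl⟩
  rw [this]
  exact hK.image hFc

instance : CompactSpace L := isCompact_iff_compactSpace.mp isCompact_LX

/-- contraction to the top -/
noncomputable def sc (r : unitInterval) (p : L) : L :=
  ⟨(r * p.1.1, r * p.1.2), dir p, mul_nonneg r.2.1 (hgt_nonneg p), fun n => by
    have h1 := hgt_bound p n
    have h2 := r.2.1
    have h3 := r.2.2
    have h4 : 0 ≤ hgt p * (1 + S n (dir p)) :=
      mul_nonneg (hgt_nonneg p) (by have := S_nonneg n (dir p); linarith)
    show (r : ℝ) * hgt p * (1 + S n (dir p)) ≤ 1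
    nlinarith, by
    show (r : ℝ) * p.1.2 = r * hgt p * emb (dir p)
    rw [snd_eq]; ring⟩

@[simp] theorem hgt_sc (r : unitInterval) (p : L) : hgt (sc r p) = r * hgt p := rfl

theorem dir_sc {r : unitInterval} {p : L} (h : 0 < (r : ℝ) * hgt p) : dir (sc r p) = dir p := by
  refine dir_eq_of h ?_
  show (r : ℝ) * p.1.2 = r * hgt p * emb (dir p)
  rw [snd_eq]; ring

theorem sc_one (p : L) : sc 1 p = p := by
  apply Subtype.ext; apply Prod.ext <;> simp [sc]

theorem sc_zero (p : L) : sc 0 p = v := eq_v (by simp)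

theorem sc_v (r : unitInterval) : sc r v = v := eq_v (by simp)

theorem sc_cont (p : L) : Continuous fun r : unitInterval => sc r p := by
  refine Continuous.subtype_mk ?_ _
  exact (continuous_subtype_val.mul continuous_const).prodMk
    (continuous_subtype_val.mul continuous_const)

instance : PathConnectedSpace L where
  nonempty := ⟨v⟩
  joined := by
    have h : ∀ p : L, Joined v p := fun p =>
      ⟨{ toFun := fun r => sc r p
         continuous_toFun := sc_cont p
         source' := sc_zero p
         target' := sc_one p }⟩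
    exact fun p q => (h p).symm.trans (h q)

theorem dir_const {P : Set L} (hP : IsPreconnected P) (h0 : ∀ p ∈ P, 0 < hgt p) {p q : L}
    (hp : p ∈ P) (hq : q ∈ P) : dir p = dir q := by
  have h1 : IsPreconnected (dir '' P) := hP.image dir (dir_contOn.mono h0)
  exact h1.subsingleton (mem_image_of_mem dir hp) (mem_image_of_mem dir hq)

theorem conn_key {K : Set L} (hK : IsClosed K) (hc : IsPreconnected K) {p : L} (hp : p ∈ K)
    {r : unitInterval} (hr : sc r p ∉ K) {q : L} (hq : q ∈ K) :
    dir q = dir p ∧ r * hgt p < hgt q := by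
  have hpos : 0 < hgt p := by
    rw [hgt_pos_iff]
    rintro rfl
    rw [sc_v] at hr
    exact hr hp
  have hr1 : (r : ℝ) < 1 := by
    rcases r.2.2.lt_or_eq with h | h
    · exact h
    · exfalso
      have : r = 1 := Subtype.ext h
      rw [this, sc_one] at hr
      exact hr hp
  have hsp : (r : ℝ) * hgt p < hgt p := by nlinarith
  rcases r.2.1.lt_or_eq with hr0 | hr0
  · -- r > 0
    set s : ℝ := r * hgt p with hs
    have hs0 : 0 < s := mul_pos hr0 hpos
    -- neighbourhood
    obtain ⟨O, hO, hOK⟩ := isOpen_induced_iff.mp hK.isOpen_compl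
    set F : Dir × ℝ → ℝ × ℝ := fun q => (q.2, q.2 * emb q.1) with hF
    have hFc : Continuous F :=
      Continuous.prodMk continuous_snd (continuous_snd.mul (emb_cont.comp continuous_fst))
    have hmem : F (dir p, s) ∈ O := by
      have : sc r p ∈ Subtype.val ⁻¹' O := by rw [hOK]; exact hr
      have h2 : (sc r p).1 = F (dir p, s) := by
        apply Prod.ext
        · rfl
        · show (r : ℝ) * p.1.2 = s * emb (dir p)
          rw [snd_eq, hs]; ring
      rw [← h2]; exact this
    have hnh : F ⁻¹' O ∈ 𝓝 (dir p, s) := (hO.preimage hFc).mem_nhds hmem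
    rw [mem_nhds_prod_iff] at hnh
    obtain ⟨N0, hN0, I0, hI0, hsub⟩ := hnh
    -- clopen partition
    have inner : ∀ N : Set Dir, IsClopen N → dir p ∈ N → N ⊆ N0 → ∀ q ∈ K, dir q ∈ N ∧ s < hgt q := by
      intro N hN hpN hNN q hq
      have hU : IsOpen ({p : L | s < hgt p} ∩ dir ⁻¹' N) :=
        (dir_contOn.mono fun p (hp : s < hgt p) => lt_trans hs0 hp).isOpen_inter_preimage
          (isOpen_lt continuous_const hgt_cont) hN.isOpen
      have hV1 : IsOpen {p : L | hgt p < s} := isOpen_lt hgt_cont continuous_const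
      have hV2 : IsOpen ({p : L | 0 < hgt p} ∩ dir ⁻¹' Nᶜ) :=
        dir_contOn.isOpen_inter_preimage (isOpen_lt continuous_const hgt_cont) hN.compl.isOpen
      have := hc.subset_left_of_subset_union hU (hV1.union hV2) ?_ ?_ ⟨p, hp, hsp, hpN⟩
      · exact ⟨(this hq).2, (this hq).1⟩
      · rw [Set.disjoint_left]
        rintro z ⟨h1, h2⟩ (h3 | h3)
        · exact lt_asymm (show s < hgt z from h1) (show hgt z < s from h3)
        · exact h3.2 h2
      · intro z hz
        rcases lt_trichotomy (hgt z) s with h | h | h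
        · right; left; exact h
        · by_cases hzN : dir z ∈ N
          · exfalso
            have h5 : F (dir z, s) ∈ O :=
              hsub (Set.mk_mem_prod (hNN hzN) (mem_of_mem_nhds hI0))
            have h6 : z.1 = F (dir z, s) := by
              apply Prod.ext
              · exact h
              · show z.1.2 = s * emb (dir z)
                rw [snd_eq, h]
            have h7 : z ∈ Subtype.val ⁻¹' O := by
              show z.1 ∈ O
              rw [h6]; exact h5
            rw [hOK] at h7
            exact h7 hz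
          · right; right
            exact ⟨by show 0 < hgt z; rw [h]; exact hs0, hzN⟩
        · by_cases hzN : dir z ∈ N
          · left; exact ⟨h, hzN⟩
          · right; right; exact ⟨lt_trans hs0 h, hzN⟩
    obtain ⟨N0', hN0', hN0o, hpN0'⟩ := mem_nhds_iff.mp hN0
    constructor
    · by_contra hne
      obtain ⟨N, hN, hpN, hNs⟩ := compact_exists_isClopen_in_isOpen
        (hN0o.inter (isOpen_compl_singleton (x := dir q))) ⟨hpN0', fun h => hne h.symm⟩
      have := (inner N hN hpN (fun z hz => hN0' (hNs hz).1) q hq).1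
      exact (hNs this).2 rfl
    · obtain ⟨N, hN, hpN, hNs⟩ := compact_exists_isClopen_in_isOpen hN0o hpN0'
      exact (inner N hN hpN (fun z hz => hN0' (hNs hz)) q hq).2
  · -- r = 0
    have hr' : r = 0 := Subtype.ext hr0.symm
    subst hr'
    rw [sc_zero] at hr
    have h0 : ∀ z ∈ K, 0 < hgt z := by
      intro z hz
      rw [hgt_pos_iff]
      rintro rfl
      exact hr hz
    refine ⟨dir_const hc h0 hq hp, ?_⟩
    simpa using h0 q hq

end Pool.Agent.Lelek
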