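import Mathlib

set_option autoImplicit false
open Filter Topology Set

namespace Pool.Agent.Lelek

section
variable {X ι : Type*} (a b : ι → X)

/-- the relation generated by the pairs -/
def prel (x y : X) : Prop := x = y ∨ ∃ i, (x = a i ∧ y = b i) ∨ (x = b i ∧ y = a i)

variable {a b}

theorem prel_symm {x y : X} (h : prel a b x y) : prel a b y x := by
  rcases h with h | ⟨i, h | h⟩
  · exact Or.inl h.symm
  · exact Or.inr ⟨i, Or.inr ⟨h.2, h.1⟩⟩
  · exact Or.inr ⟨i, Or.inl ⟨h.2, h.1⟩⟩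

theorem prel_trans (ha : Function.Injective a) (hb : Function.Injective b)
    (hab : Disjoint (range a) (range b)) {x y z : X} (h : prel a b x y) (h' : prel a b y z) :
    prel a b x z := by
  have hd : ∀ i j, a i ≠ b j := fun i j hij =>
    Set.disjoint_left.mp hab ⟨i, rfl⟩ ⟨j, hij.symm⟩
  rcases h with rfl | ⟨i, ⟨rfl, rfl⟩ | ⟨rfl, rfl⟩⟩
  · exact h'
  · rcases h' with rfl | ⟨j, ⟨h1, rfl⟩ | ⟨h1, rfl⟩⟩
    · exact Or.inr ⟨i, Or.inl ⟨rfl, rfl⟩⟩
    · exact absurd h1.symm (hd j i)
    · exact Or.inl (by rw [hb h1])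
  · rcases h' with rfl | ⟨j, ⟨h1, rfl⟩ | ⟨h1, rfl⟩⟩
    · exact Or.inr ⟨i, Or.inr ⟨rfl, rfl⟩⟩
    · exact Or.inl (by rw [ha h1])
    · exact absurd h1 (hd i j)

/-- the setoid generated by the pairs -/
def pset (ha : Function.Injective a) (hb : Function.Injective b)
    (hab : Disjoint (range a) (range b)) : Setoid X where
  r := prel a b
  iseqv := ⟨fun _ => Or.inl rfl, prel_symm, prel_trans ha hb hab⟩

theorem pset_eq (ha : Function.Injective a) (hb : Function.Injective b)
    (hab : Disjoint (range a) (range b)) :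
    sInf {s : Setoid X | ∀ i, s.r (a i) (b i)} = pset ha hb hab := by
  apply le_antisymm
  · exact sInf_le (fun i => Or.inr ⟨i, Or.inl ⟨rfl, rfl⟩⟩)
  · refine le_sInf fun s hs => ?_
    intro x y h
    rcases h with rfl | ⟨i, ⟨rfl, rfl⟩ | ⟨rfl, rfl⟩⟩
    · exact s.iseqv.refl _
    · exact hs i
    · exact s.iseqv.symm (hs i)

end

section
variable {X ι : Type*} [MetricSpace X] {a b : ι → X}

theorem isClosed_prel (ht : Tendsto (fun i => dist (a i) (b i)) cofinite (𝓝 0)) :
    IsClosed {p : X × X | prel a b p.1 p.2} := by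
  refine isClosed_of_closure_subset fun p hp => ?_
  by_cases hne : p.1 = p.2
  · exact Or.inl hne
  have hε : 0 < dist p.1 p.2 := dist_pos.mpr hne
  set ε := dist p.1 p.2 with hεd
  have hfin : {i | ε / 2 < dist (a i) (b i)}.Finite := by
    have h1 : ∀ᶠ i in cofinite, dist (a i) (b i) < ε / 2 :=
      ht.eventually (gt_mem_nhds (by positivity))
    refine Set.Finite.subset (Filter.eventually_cofinite.mp h1) fun i hi => ?_
    exact not_lt.mpr (le_of_lt hi)
  set O : Set (X × X) := {q | ε / 2 < dist q.1 q.2} with hO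
  have hOo : IsOpen O := isOpen_lt continuous_const continuous_dist
  have hpO : p ∈ O := by show ε / 2 < dist p.1 p.2; rw [← hεd]; linarith
  have h1 : p ∈ closure (O ∩ {p : X × X | prel a b p.1 p.2}) := hOo.inter_closure ⟨hpO, hp⟩
  have h2 : O ∩ {p : X × X | prel a b p.1 p.2} ⊆
      (fun i => (a i, b i)) '' {i | ε / 2 < dist (a i) (b i)} ∪
      (fun i => (b i, a i)) '' {i | ε / 2 < dist (a i) (b i)} := by
    rintro ⟨x, y⟩ ⟨h3, h4⟩
    have h3' : ε / 2 < dist x y := h3
    rcases h4 with h4 | ⟨i, ⟨h4, h5⟩ | ⟨h4, h5⟩⟩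
    · have h4' : x = y := h4
      rw [h4', dist_self] at h3'
      linarith
    · left
      refine ⟨i, ?_, ?_⟩
      · show ε / 2 < dist (a i) (b i)
        rw [← show x = a i from h4, ← show y = b i from h5]; exact h3'
      · exact Prod.ext h4.symm h5.symm
    · right
      refine ⟨i, ?_, ?_⟩
      · show ε / 2 < dist (a i) (b i)
        rw [← show x = b i from h4, ← show y = a i from h5, dist_comm]; exact h3'
      · exact Prod.ext h4.symm h5.symm
  have hfin2 : ((fun i => (a i, b i)) '' {i | ε / 2 < dist (a i) (b i)} ∪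
      (fun i => (b i, a i)) '' {i | ε / 2 < dist (a i) (b i)}).Finite :=
    (hfin.image _).union (hfin.image _)
  have h3 := hfin2.isClosed.closure_subset (closure_mono h2 h1)
  rcases h3 with ⟨i, _, rfl⟩ | ⟨i, _, rfl⟩
  · exact Or.inr ⟨i, Or.inl ⟨rfl, rfl⟩⟩
  · exact Or.inr ⟨i, Or.inr ⟨rfl, rfl⟩⟩

end

section
variable {X : Type*} [TopologicalSpace X] [CompactSpace X] [T2Space X] {D : Setoid X}

theorem closedMap_of_closedRel (h : IsClosed {p : X × X | D.r p.1 p.2}) :
    IsClosedMap (Quotient.mk D) := by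
  intro F hF
  have hq : IsQuotientMap (Quotient.mk D) := isQuotientMap_quotient_mk'
  rw [← hq.isClosed_preimage]
  have : Quotient.mk D ⁻¹' (Quotient.mk D '' F)
      = Prod.snd '' ({p : X × X | D.r p.1 p.2} ∩ (F ×ˢ univ)) := by
    ext y
    constructor
    · rintro ⟨x, hx, hxy⟩
      exact ⟨(x, y), ⟨Quotient.exact hxy, hx, mem_univ _⟩, rfl⟩
    · rintro ⟨⟨x, y'⟩, ⟨h1, h2, _⟩, rfl⟩
      exact ⟨x, h2, Quotient.sound h1⟩
  rw [this]
  exact ((h.inter (hF.prod isClosed_univ)).isCompact.image continuous_snd).isClosed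

theorem t2_of_closedRel (h : IsClosed {p : X × X | D.r p.1 p.2}) : T2Space (Quotient D) := by
  have hc := closedMap_of_closedRel h
  have hcont : Continuous (Quotient.mk D) := continuous_quotient_mk'
  refine ⟨fun z w hzw => ?_⟩
  have hcl : ∀ z : Quotient D, IsClosed (Quotient.mk D ⁻¹' {z}) := by
    intro z
    obtain ⟨x, rfl⟩ := Quotient.exists_rep z
    have : IsClosed (Quotient.mk D '' {x}) := hc _ isClosed_singleton
    rw [image_singleton] at this
    exact this.preimage hcont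
  have hdis : Disjoint (Quotient.mk D ⁻¹' {z}) (Quotient.mk D ⁻¹' {w}) := by
    rw [Set.disjoint_left]
    rintro x hx hx'
    exact hzw ((show Quotient.mk D x = z from hx).symm.trans hx')
  obtain ⟨U, V, hU, hV, hzU, hwV, hUV⟩ := normal_separation (hcl z) (hcl w) hdis
  refine ⟨(Quotient.mk D '' Uᶜ)ᶜ, (Quotient.mk D '' Vᶜ)ᶜ, (hc _ hU.isClosed_compl).isOpen_compl,
    (hc _ hV.isClosed_compl).isOpen_compl, ?_, ?_, ?_⟩
  · rintro ⟨x, hx, hxz⟩
    exact hx (hzU hxz)
  · rintro ⟨x, hx, hxz⟩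
    exact hx (hwV hxz)
  · rw [Set.disjoint_left]
    intro c hc1 hc2
    obtain ⟨x, rfl⟩ := Quotient.exists_rep c
    have h1 : x ∈ U := by
      by_contra hx; exact hc1 ⟨x, hx, rfl⟩
    have h2 : x ∈ V := by
      by_contra hx; exact hc2 ⟨x, hx, rfl⟩
    exact Set.disjoint_left.mp hUV h1 h2

end

theorem continuousOn_of_closedMap {X Y Z : Type*} [TopologicalSpace X] [TopologicalSpace Y]
    [TopologicalSpace Z] {q : X → Y} (hq : IsClosedMap q) (hc : Continuous q)
    (hs : Function.Surjective q) {S : Set Y} {f : Y → Z} (h : ContinuousOn (f ∘ q) (q ⁻¹' S)) :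
    ContinuousOn f S := by
  rw [continuousOn_iff_continuous_domRestrict] at h ⊢
  have h1 : IsQuotientMap (S.restrictPreimage q) :=
    (hq.restrictPreimage S).isQuotientMap (hc.restrictPreimage)
      (by
        rintro ⟨y, hy⟩
        obtain ⟨x, rfl⟩ := hs y
        exact ⟨⟨x, hy⟩, rfl⟩)
  rw [h1.continuous_iff]
  exact h

end Pool.Agent.Lelek
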