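import Pool.Agent.Lib.MP_211c6f_gt.Pairs
import Pool.Agent.Lib.MP_211c6f_gt.Quot

set_option autoImplicit false
open Filter Topology Set

namespace Pool.Agent.Lelek

/-- finite words -/
abbrev Wd (α : Type) : Type := Σ k : ℕ, (Fin k → α)

/-- extension of a word by zeros -/
def ext1 (s : Wd (Fin 4)) : Dir := fun n => if h : n < s.1 then s.2 ⟨n, h⟩ else 0

/-- restriction of a sequence to a word -/
def res {α : Type} (k : ℕ) (y : ℕ → α) : Wd α := ⟨k, fun i => y i⟩

theorem ext1_res (k : ℕ) (y : Dir) {i : ℕ} (hi : i < k) : ext1 (res k y) i = y i := by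
  simp [ext1, res, hi]

theorem wd_ext {α : Type} {k : ℕ} {f g : Fin k → α} (h : ∀ i (hi : i < k), f ⟨i, hi⟩ = g ⟨i, hi⟩) :
    (⟨k, f⟩ : Wd α) = ⟨k, g⟩ := by
  congr 1
  funext i
  exact h i.1 i.2

noncomputable def A (s : Wd (Fin 4)) : L := tp s.1 (ext1 s) 1 0 om_zero
noncomputable def B (s : Wd (Fin 4)) : L := tp s.1 (ext1 s) 2 0 om_zero

theorem dir_A (s : Wd (Fin 4)) : dir (A s) = cc s.1 (ext1 s) 1 0 := dir_tp _ _ _ _ _
theorem dir_B (s : Wd (Fin 4)) : dir (B s) = cc s.1 (ext1 s) 2 0 := dir_tp _ _ _ _ _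

theorem word_eq {s s' : Wd (Fin 4)} (h : s.1 = s'.1) (h' : ∀ i < s.1, ext1 s i = ext1 s' i) :
    s = s' := by
  obtain ⟨k, f⟩ := s
  obtain ⟨k', g⟩ := s'
  simp only at h
  subst h
  refine wd_ext fun i hi => ?_
  have := h' i hi
  simpa [ext1, hi] using this

theorem dirA_inj {s s' : Wd (Fin 4)} (h : dir (A s) = dir (A s')) : s = s' := by
  rw [dir_A, dir_A] at h
  obtain ⟨h1, _, h2⟩ := cc_inj (by decide) (by decide) h
  exact word_eq h1 h2

theorem dirB_inj {s s' : Wd (Fin 4)} (h : dir (B s) = dir (B s')) : s = s' := by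
  rw [dir_B, dir_B] at h
  obtain ⟨h1, _, h2⟩ := cc_inj (by decide) (by decide) h
  exact word_eq h1 h2

theorem dirAB_ne (s s' : Wd (Fin 4)) : dir (A s) ≠ dir (B s') := by
  intro h
  rw [dir_A, dir_B] at h
  have := (cc_inj (by decide) (by decide) h).2.1
  exact absurd this (by decide)

theorem A_inj : Function.Injective A := fun _ _ h => dirA_inj (congrArg dir h)
theorem B_inj : Function.Injective B := fun _ _ h => dirB_inj (congrArg dir h)
theorem AB_disj : Disjoint (range A) (range B) := by
  rw [Set.disjoint_left]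
  rintro _ ⟨s, rfl⟩ ⟨s', h⟩
  exact dirAB_ne s s' (congrArg dir h.symm)

theorem hgt_AB (s : Wd (Fin 4)) : hgt (A s) = hgt (B s) := by
  rw [A, B, hgt_tp, hgt_tp, W, W, om_one, om_two]

theorem wd_finite {α : Type} [Finite α] (K : ℕ) : {s : Wd α | s.1 ≤ K}.Finite := by
  have : {s : Wd α | s.1 ≤ K} = ⋃ k ∈ Iic K, range (fun f : Fin k → α => (⟨k, f⟩ : Wd α)) := by
    ext ⟨k, f⟩
    simp
  rw [this]
  exact (Set.finite_Iic K).biUnion fun k _ => Set.finite_range _

theorem tendsto_len {α : Type} [Finite α] :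
    Tendsto (fun s : Wd α => ((5 : ℝ) ^ s.1)⁻¹) cofinite (𝓝 0) := by
  have h1 : Tendsto (fun s : Wd α => s.1) cofinite atTop := by
    rw [Filter.tendsto_atTop]
    intro K
    rw [Filter.eventually_cofinite]
    refine (wd_finite K).subset fun s hs => ?_
    have : ¬ K ≤ s.1 := hs
    show s.1 ≤ K
    omega
  have h2 : Tendsto (fun n : ℕ => ((5 : ℝ) ^ n)⁻¹) atTop (𝓝 0) := by
    have := tendsto_pow_atTop_nhds_zero_of_lt_one (r := (1 / 5 : ℝ)) (by norm_num) (by norm_num)
    simpa using this
  exact h2.comp h1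

theorem dist_AB_tendsto : Tendsto (fun s => dist (A s) (B s)) cofinite (𝓝 0) := by
  refine squeeze_zero (fun _ => dist_nonneg) (fun s => ?_) tendsto_len
  exact dist_tp_le _ _ _ _ _ _ _ _ (by rw [om_one, om_two])

theorem A_res (k : ℕ) (y : Dir) : A (res k y) = tp k y 1 0 om_zero :=
  tp_congr fun _ hi => ext1_res k y hi

theorem B_res (k : ℕ) (y : Dir) : B (res k y) = tp k y 2 0 om_zero :=
  tp_congr fun _ hi => ext1_res k y hi

theorem A_dense : Dense (range A) := by
  rw [Metric.dense_iff]
  intro p r hr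
  obtain ⟨k, _, y, h⟩ := dense_tp p hr 0
  refine ⟨A (res k y), ?_, ⟨_, rfl⟩⟩
  rw [A_res, Metric.mem_ball, dist_comm]
  exact h

theorem B_dense : Dense (range B) := by
  rw [Metric.dense_iff]
  intro p r hr
  obtain ⟨N2, hN2⟩ := exists_pow_lt_of_lt_one (show (0 : ℝ) < r / 2 by positivity)
      (show (1 / 5 : ℝ) < 1 by norm_num)
  obtain ⟨k, hk, y, h⟩ := dense_tp p (half_pos hr) N2
  refine ⟨B (res k y), ?_, ⟨_, rfl⟩⟩
  rw [B_res, Metric.mem_ball, dist_comm]
  have h1 : dist (tp k y 1 0 om_zero) (tp k y 2 0 om_zero) ≤ ((5 : ℝ) ^ k)⁻¹ :=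
    dist_tp_le _ _ _ _ _ _ _ _ (by rw [om_one, om_two])
  have h2 : ((5 : ℝ) ^ k)⁻¹ ≤ (1 / 5) ^ N2 := by
    rw [one_div, inv_pow]
    have : (5 : ℝ) ^ N2 ≤ 5 ^ k := pow_le_pow_right₀ (by norm_num) hk
    gcongr
  have h3 := dist_triangle p (tp k y 1 0 om_zero) (tp k y 2 0 om_zero)
  linarith

/-- invariant of directions -/
def rho (x : Dir) : ℕ → ℕ → Fin 4 := fun K i =>
  if i < K then (if x i = 2 ∧ ∀ j < K, i < j → x j = 0 then 1 else x i) else 0

theorem locally_const_cont {Z : Type*} [TopologicalSpace Z] {f : Dir → Z} (K : ℕ)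
    (h : ∀ x y : Dir, (∀ i < K, x i = y i) → f x = f y) : Continuous f := by
  have h1 : f = (fun s : Fin K → Fin 4 => f (ext1 ⟨K, s⟩)) ∘ (fun (x : Dir) (i : Fin K) => x i) := by
    funext x
    refine h _ _ fun i hi => ?_
    simp [ext1, hi]
  rw [h1]
  refine (continuous_of_discreteTopology).comp ?_
  exact continuous_pi fun i => continuous_apply (i : ℕ)

theorem rho_cont : Continuous rho := by
  refine continuous_pi fun K => continuous_pi fun i => ?_
  refine locally_const_cont K fun x y h => ?_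
  simp only [rho]
  by_cases hi : i < K
  · rw [if_pos hi, if_pos hi, h i hi]
    have : (∀ j < K, i < j → x j = 0) ↔ (∀ j < K, i < j → y j = 0) := by
      constructor
      · intro h' j hj hij; rw [← h j hj]; exact h' j hj hij
      · intro h' j hj hij; rw [h j hj]; exact h' j hj hij
    simp only [this]
  · rw [if_neg hi, if_neg hi]

theorem rho_cc (k : ℕ) (y : Dir) : rho (cc k y 1 0) = rho (cc k y 2 0) := by
  funext K i
  simp only [rho]
  by_cases hi : i < K
  swap
  · rw [if_neg hi, if_neg hi]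
  rw [if_pos hi, if_pos hi]
  rcases lt_trichotomy i k with h | h | h
  · rw [cc_lt h, cc_lt h]
    by_cases hK : k < K
    · rw [if_neg, if_neg]
      · rintro ⟨_, h2⟩
        have := h2 k hK h
        rw [cc_self] at this
        exact absurd this (by decide)
      · rintro ⟨_, h2⟩
        have := h2 k hK h
        rw [cc_self] at this
        exact absurd this (by decide)
    · have : (∀ j < K, i < j → cc k y 1 0 j = 0) ↔ (∀ j < K, i < j → cc k y 2 0 j = 0) := by
        constructor
        · intro h' j hj hij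
          rw [cc_lt (by omega)]
          have := h' j hj hij
          rwa [cc_lt (by omega)] at this
        · intro h' j hj hij
          rw [cc_lt (by omega)]
          have := h' j hj hij
          rwa [cc_lt (by omega)] at this
      simp only [this]
  · subst h
    rw [cc_self, cc_self, if_neg (by rintro ⟨h1, _⟩; exact absurd h1 (by decide)), if_pos]
    exact ⟨rfl, fun j _ hij => cc_gt hij⟩
  · rw [cc_gt h, cc_gt h, if_neg, if_neg]
    · rintro ⟨h1, _⟩; exact absurd h1 (by decide)
    · rintro ⟨h1, _⟩; exact absurd h1 (by decide)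

theorem rho_aux {x y : Dir} {n : ℕ} (h : rho x = rho y) (hn : ∀ i < n, x i = y i)
    (h2 : x n = 2) (hy : y n ≠ 2) : y = cc n x 1 0 ∧ x = cc n x 2 0 := by
  have hyn : ∀ K, n < K → rho y K n = y n := by
    intro K hK
    simp only [rho]
    rw [if_pos hK, if_neg]
    rintro ⟨h1, _⟩
    exact hy h1
  have hx : ∀ K, n < K → ∀ j < K, n < j → x j = 0 := by
    intro K hK
    by_contra hcon
    have h3 : rho x K n = x n := by
      simp only [rho]
      rw [if_pos hK, if_neg]
      rintro ⟨_, h4⟩
      exact hcon h4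
    rw [h, hyn K hK, h2] at h3
    exact hy h3
  have hx0 : ∀ j, n < j → x j = 0 := fun j hj => hx (j + 1) (by omega) j (by omega) hj
  have hy1 : y n = 1 := by
    have h3 : rho x (n + 1) n = 1 := by
      simp only [rho]
      rw [if_pos (by omega), if_pos]
      exact ⟨h2, fun j hj hnj => by omega⟩
    rw [h, hyn _ (by omega)] at h3
    exact h3
  have hy0 : ∀ j, n < j → y j = 0 := by
    intro j hj
    have h3 : rho x (j + 1) j = 0 := by
      simp only [rho]
      rw [if_pos (by omega), if_neg, hx0 j hj]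
      rintro ⟨h1, _⟩
      rw [hx0 j hj] at h1
      exact absurd h1 (by decide)
    rw [h] at h3
    simp only [rho] at h3
    rw [if_pos (by omega)] at h3
    by_cases hc : y j = 2 ∧ ∀ j' < j + 1, j < j' → y j' = 0
    · rw [if_pos hc] at h3
      exact absurd h3 (by decide)
    · rw [if_neg hc] at h3
      exact h3
  constructor
  · funext i
    rcases lt_trichotomy i n with h | h | h
    · rw [cc_lt h, hn i h]
    · subst h; rw [cc_self, hy1]
    · rw [cc_gt h, hy0 i h]
  · funext i
    rcases lt_trichotomy i n with h | h | h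
    · rw [cc_lt h]
    · subst h; rw [cc_self, h2]
    · rw [cc_gt h, hx0 i h]

theorem rho_eq {x y : Dir} (h : rho x = rho y) :
    x = y ∨ ∃ s : Wd (Fin 4), (x = dir (A s) ∧ y = dir (B s)) ∨ (x = dir (B s) ∧ y = dir (A s)) := by
  by_cases hne : x = y
  · exact Or.inl hne
  right
  obtain ⟨n, hn, hd⟩ := exists_first_diff hne
  have hAr : ∀ z : Dir, dir (A (res n z)) = cc n z 1 0 := fun z => by rw [A_res, dir_tp]
  have hBr : ∀ z : Dir, dir (B (res n z)) = cc n z 2 0 := fun z => by rw [B_res, dir_tp]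
  by_cases hx : x n = 2
  · have hy : y n ≠ 2 := fun h' => hd (hx.trans h'.symm)
    obtain ⟨h1, h2⟩ := rho_aux h hn hx hy
    exact ⟨res n x, Or.inr ⟨by rw [hBr]; exact h2, by rw [hAr]; exact h1⟩⟩
  · by_cases hy : y n = 2
    · obtain ⟨h1, h2⟩ := rho_aux h.symm (fun i hi => (hn i hi).symm) hy hx
      exact ⟨res n y, Or.inl ⟨by rw [hAr]; exact h1, by rw [hBr]; exact h2⟩⟩
    · exfalso
      have h1 : rho x (n + 1) n = x n := by
        simp only [rho]
        rw [if_pos (by omega), if_neg (fun h' => hx h'.1)]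
      have h2 : rho y (n + 1) n = y n := by
        simp only [rho]
        rw [if_pos (by omega), if_neg (fun h' => hy h'.1)]
      rw [h, h2] at h1
      exact hd h1.symm

/-- The good equivalence relation. -/
noncomputable def Dg : Setoid L := pset A_inj B_inj AB_disj

theorem Dg_closed : IsClosed {p : L × L | Dg.r p.1 p.2} := isClosed_prel dist_AB_tendsto

instance : T2Space (Quotient Dg) := t2_of_closedRel Dg_closed

/-- quotient map -/
noncomputable def qg : L → Quotient Dg := Quotient.mk Dg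

theorem qg_closed : IsClosedMap qg := closedMap_of_closedRel Dg_closed
theorem qg_cont : Continuous qg := continuous_quotient_mk'
theorem qg_surj : Function.Surjective qg := Quotient.mk_surjective

theorem qg_eq {p q : L} : qg p = qg q ↔ prel A B p q := by
  constructor
  · intro h; exact Quotient.exact h
  · intro h; exact Quotient.sound h

theorem A_pos (s : Wd (Fin 4)) : 0 < hgt (A s) := hgt_tp_pos _ _ _ _ _
theorem B_pos (s : Wd (Fin 4)) : 0 < hgt (B s) := hgt_tp_pos _ _ _ _ _
theorem A_top (s : Wd (Fin 4)) : IsTop (A s) := tp_top _ _ _ _ _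
theorem B_top (s : Wd (Fin 4)) : IsTop (B s) := tp_top _ _ _ _ _

theorem qg_v {p : L} : qg p = qg v ↔ p = v := by
  constructor
  · intro h
    rcases qg_eq.mp h with h | ⟨s, ⟨_, h⟩ | ⟨_, h⟩⟩
    · exact h
    · have := B_pos s; rw [← h] at this; simp at this
    · have := A_pos s; rw [← h] at this; simp at this
  · rintro rfl; rfl

/-- descend an invariant function -/
noncomputable def desc {Z : Type*} (f : L → Z) : Quotient Dg → Z := fun z => f z.out

theorem desc_eq {Z : Type*} {f : L → Z} (h : ∀ s, f (A s) = f (B s)) (p : L) :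
    desc f (qg p) = f p := by
  have h1 : qg (qg p).out = qg p := Quotient.out_eq _
  rcases qg_eq.mp h1 with h2 | ⟨s, ⟨h2, h3⟩ | ⟨h2, h3⟩⟩
  · rw [desc, h2]
  · rw [desc, h2, h3, h s]
  · rw [desc, h2, h3, h s]

theorem good_not_ram {w : Quotient Dg} (hw : w ≠ qg v) : ¬ Ram w := by
  obtain ⟨p, rfl⟩ := qg_surj w
  have hpv : p ≠ v := fun h => hw (by rw [h])
  have hp0 : 0 < hgt p := hgt_pos_iff.mpr hpv
  -- the invariant
  set π : Quotient Dg → (ℕ → ℕ → Fin 4) := desc (fun p => rho (dir p)) with hπ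
  have hπe : ∀ p, π (qg p) = rho (dir p) :=
    desc_eq (fun s => by rw [dir_A, dir_B]; exact rho_cc _ _)
  set U : Set (Quotient Dg) := {qg v}ᶜ with hU
  have hUo : IsOpen U := isOpen_compl_singleton
  have hπc : ContinuousOn π U := by
    refine continuousOn_of_closedMap qg_closed qg_cont qg_surj ?_
    have h1 : π ∘ qg = rho ∘ dir := funext hπe
    rw [h1]
    refine rho_cont.comp_continuousOn (dir_contOn.mono fun z hz => ?_)
    exact hgt_pos_iff.mpr fun h => hz (by rw [h]; rfl)
  set F : Set (Quotient Dg) := {z | z ∈ U ∧ π z = π (qg p)} with hF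
  have hPF : ∀ P : Set (Quotient Dg), P ⊆ U → IsPreconnected P → qg p ∈ P → P ⊆ F := by
    intro P hPU hP hpP z hz
    refine ⟨hPU hz, ?_⟩
    exact (hP.image π (hπc.mono hPU)).subsingleton (mem_image_of_mem π hz) (mem_image_of_mem π hpP)
  have hFpos : ∀ z, qg z ∈ F → 0 < hgt z := fun z hz =>
    hgt_pos_iff.mpr fun h => hz.1 (by rw [h]; rfl)
  by_cases hcase : ∃ s, dir p = dir (A s) ∨ dir p = dir (B s)
  · obtain ⟨s, hs⟩ := hcase
    have hFdir : ∀ z, qg z ∈ F → dir z = dir (A s) ∨ dir z = dir (B s) := by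
      intro z hz
      have h1 := hz.2
      rw [hπe, hπe] at h1
      rcases rho_eq h1 with h2 | ⟨s', ⟨h2, h3⟩ | ⟨h2, h3⟩⟩
      · rw [h2]; exact hs
      · rcases hs with hs | hs
        · exact absurd (hs.symm.trans h3) (dirAB_ne _ _)
        · have := dirB_inj (hs.symm.trans h3)
          subst this
          exact Or.inl h2
      · rcases hs with hs | hs
        · have := dirA_inj (hs.symm.trans h3)
          subst this
          exact Or.inr h2
        · exact absurd (h3.symm.trans hs) (dirAB_ne _ _)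
    set T := hgt (A s) with hT
    classical
    set g : L → ℝ := fun z => if dir z = dir (A s) then T - hgt z else
      if dir z = dir (B s) then hgt z - T else 0 with hg
    have hginv : ∀ s', g (A s') = g (B s') := by
      intro s'
      by_cases h : s' = s
      · subst h
        have e1 : g (A s') = T - hgt (A s') := if_pos rfl
        have e2 : g (B s') = hgt (B s') - T :=
          (if_neg (fun h => dirAB_ne s' s' h.symm)).trans (if_pos rfl)
        rw [e1, e2, ← hgt_AB s', ← hT]
      · simp only [hg]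
        rw [if_neg (fun h' => h (dirA_inj h')), if_neg (dirAB_ne s' s),
          if_neg (fun h' => dirAB_ne s s' h'.symm), if_neg (fun h' => h (dirB_inj h'))]
    refine not_ram hUo hw (G := desc g) (F := F) ?_ ?_ hPF
    · refine continuousOn_of_closedMap qg_closed qg_cont qg_surj ?_
      have h1 : desc g ∘ qg = g := funext (desc_eq hginv)
      rw [h1]
      set σ : Fin 4 → ℝ := fun a => if a = 1 then 1 else -1 with hσ
      have h2 : ContinuousOn (fun z => σ (dir z s.1) * (T - hgt z)) (qg ⁻¹' F) := by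
        refine ContinuousOn.mul ?_ (continuous_const.sub hgt_cont).continuousOn
        have h3 : Continuous fun x : Dir => σ (x s.1) :=
          (continuous_of_discreteTopology (f := σ)).comp (continuous_apply s.1)
        exact h3.comp_continuousOn (dir_contOn.mono fun z hz => hFpos z hz)
      refine h2.congr fun z hz => ?_
      rcases hFdir z hz with h3 | h3
      · simp only [hg]
        rw [if_pos h3, h3, dir_A, cc_self, hσ]
        simp
      · simp only [hg]
        rw [if_neg (fun h => dirAB_ne s s (h.symm.trans h3)), if_pos h3, h3, dir_B, cc_self, hσ]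
        simp
    · intro z1 hz1 z2 hz2 h12
      obtain ⟨p1, rfl⟩ := qg_surj z1
      obtain ⟨p2, rfl⟩ := qg_surj z2
      rw [desc_eq hginv, desc_eq hginv] at h12
      have ht1 : ∀ z, qg z ∈ F → dir z = dir (A s) → hgt z ≤ T := fun z hz hd =>
        (A_top s).2 z (hFpos z hz) hd
      have ht2 : ∀ z, qg z ∈ F → dir z = dir (B s) → hgt z ≤ T := fun z hz hd => by
        rw [hT, hgt_AB]
        exact (B_top s).2 z (hFpos z hz) hd
      have gA : ∀ z, dir z = dir (A s) → g z = T - hgt z := fun z hz => by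
        simp only [hg]; rw [if_pos hz]
      have gB : ∀ z, dir z = dir (B s) → g z = hgt z - T := fun z hz => by
        simp only [hg]; rw [if_neg (fun h => dirAB_ne s s (h.symm.trans hz)), if_pos hz]
      have hmix : ∀ q1 q2, qg q1 ∈ F → qg q2 ∈ F → dir q1 = dir (A s) → dir q2 = dir (B s) →
          g q1 = g q2 → qg q1 = qg q2 := by
        intro q1 q2 hq1 hq2 hd1 hd2 h
        rw [gA q1 hd1, gB q2 hd2] at h
        have e1 := ht1 q1 hq1 hd1
        have e2 := ht2 q2 hq2 hd2
        have e3 : q1 = A s := ext' (by rw [← hT]; linarith) hd1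
        have e4 : q2 = B s := ext' (by rw [← hgt_AB, ← hT]; linarith) hd2
        rw [e3, e4]
        exact qg_eq.mpr (Or.inr ⟨s, Or.inl ⟨rfl, rfl⟩⟩)
      rcases hFdir p1 hz1 with h1 | h1 <;> rcases hFdir p2 hz2 with h2 | h2
      · rw [gA p1 h1, gA p2 h2] at h12
        rw [ext' (show hgt p1 = hgt p2 by linarith) (h1.trans h2.symm)]
      · exact hmix p1 p2 hz1 hz2 h1 h2 h12
      · exact (hmix p2 p1 hz2 hz1 h2 h1 h12.symm).symm
      · rw [gB p1 h1, gB p2 h2] at h12
        rw [ext' (show hgt p1 = hgt p2 by linarith) (h1.trans h2.symm)]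
  · push Not at hcase
    have hFdir : ∀ z, qg z ∈ F → dir z = dir p := by
      intro z hz
      have h1 := hz.2
      rw [hπe, hπe] at h1
      rcases rho_eq h1 with h2 | ⟨s', ⟨h2, h3⟩ | ⟨h2, h3⟩⟩
      · exact h2
      · exact absurd h3 (hcase s').2
      · exact absurd h3 (hcase s').1
    refine not_ram hUo hw (G := desc hgt) (F := F) ?_ ?_ hPF
    · refine continuousOn_of_closedMap qg_closed qg_cont qg_surj ?_
      have h1 : desc hgt ∘ qg = hgt := funext (desc_eq hgt_AB)
      rw [h1]
      exact hgt_cont.continuousOn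
    · intro z1 hz1 z2 hz2 h12
      obtain ⟨p1, rfl⟩ := qg_surj z1
      obtain ⟨p2, rfl⟩ := qg_surj z2
      rw [desc_eq hgt_AB, desc_eq hgt_AB] at h12
      rw [ext' h12 ((hFdir p1 hz1).trans (hFdir p2 hz2).symm)]

end Pool.Agent.Lelek
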