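import Pool.Agent.Lib.MP_211c6f_gt.Arcs

set_option autoImplicit false
open Filter Topology Set

namespace Pool.Agent.Lelek

/-- the word `y 0 .. y (k-1)` followed by the letter `a`, then all letters `b` -/
def cc (k : ℕ) (y : Dir) (a b : Fin 4) : Dir :=
  fun n => if n < k then y n else if n = k then a else b

theorem cc_lt {k : ℕ} {y : Dir} {a b : Fin 4} {n : ℕ} (h : n < k) : cc k y a b n = y n := by
  simp [cc, h]

theorem cc_self {k : ℕ} {y : Dir} {a b : Fin 4} : cc k y a b k = a := by simp [cc]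

theorem cc_gt {k : ℕ} {y : Dir} {a b : Fin 4} {n : ℕ} (h : k < n) : cc k y a b n = b := by
  have h1 : ¬ n < k := by omega
  have h2 : n ≠ k := by omega
  simp [cc, h1, h2]

theorem cc_inj {k k' : ℕ} {y y' : Dir} {a a' b : Fin 4} (ha : a ≠ b) (ha' : a' ≠ b)
    (h : cc k y a b = cc k' y' a' b) : k = k' ∧ a = a' ∧ ∀ i < k, y i = y' i := by
  have hk : k = k' := by
    rcases lt_trichotomy k k' with h1 | h1 | h1
    · have := congrFun h k'
      rw [cc_gt h1, cc_self] at this
      exact absurd this.symm ha'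
    · exact h1
    · have := congrFun h k
      rw [cc_gt h1, cc_self] at this
      exact absurd this ha
  subst hk
  refine ⟨rfl, ?_, fun i hi => ?_⟩
  · have := congrFun h k
    rwa [cc_self, cc_self] at this
  · have := congrFun h i
    rwa [cc_lt hi, cc_lt hi] at this

theorem cc_ne_tail {k k' : ℕ} {y y' : Dir} {a a' b b' : Fin 4} (hb : b ≠ b') :
    cc k y a b ≠ cc k' y' a' b' := by
  intro h
  have := congrFun h (max k k' + 1)
  rw [cc_gt (by omega), cc_gt (by omega)] at this
  exact hb this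

theorem cc_congr {k : ℕ} {y y' : Dir} {a b : Fin 4} (h : ∀ i < k, y i = y' i) :
    cc k y a b = cc k y' a b := by
  funext n
  rcases lt_trichotomy n k with h1 | h1 | h1
  · rw [cc_lt h1, cc_lt h1, h n h1]
  · subst h1; rw [cc_self, cc_self]
  · rw [cc_gt h1, cc_gt h1]

theorem S_congr {n : ℕ} {x y : Dir} (h : ∀ i < n, x i = y i) : S n x = S n y :=
  Finset.sum_congr rfl fun i hi => by rw [h i (Finset.mem_range.mp hi)]

/-- total weight of `cc` -/
noncomputable def W (k : ℕ) (y : Dir) (a : Fin 4) : ℝ := S k y + om a / ((k : ℝ) + 1)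

theorem W_nonneg (k : ℕ) (y : Dir) (a : Fin 4) : 0 ≤ W k y a :=
  add_nonneg (S_nonneg _ _) (div_nonneg (om_nonneg _) (by positivity))

theorem S_cc {k : ℕ} {y : Dir} {a b : Fin 4} (hb : om b = 0) {n : ℕ} (hn : k + 1 ≤ n) :
    S n (cc k y a b) = W k y a := by
  induction n, hn using Nat.le_induction with
  | base =>
    rw [S_succ, cc_self, W]
    congr 1
    exact S_congr fun i hi => cc_lt hi
  | succ n hn ih =>
    rw [S_succ, ih, cc_gt (by omega), hb]; simp

theorem S_cc_le {k : ℕ} {y : Dir} {a b : Fin 4} (hb : om b = 0) (n : ℕ) :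
    S n (cc k y a b) ≤ W k y a := by
  rw [← S_cc hb (le_max_right n (k + 1))]
  exact S_mono _ (le_max_left _ _)

/-- The endpoint of the leg with direction `cc k y a b`. -/
noncomputable def tp (k : ℕ) (y : Dir) (a b : Fin 4) (hb : om b = 0) : L :=
  mk (cc k y a b) (1 + W k y a)⁻¹ (inv_nonneg.mpr (by have := W_nonneg k y a; linarith)) (by
    intro n
    have h1 := S_cc_le hb n (k := k) (y := y) (a := a)
    have h2 := W_nonneg k y a
    rw [inv_mul_le_iff₀ (by linarith)]
    linarith)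

theorem hgt_tp (k : ℕ) (y : Dir) (a b : Fin 4) (hb : om b = 0) :
    hgt (tp k y a b hb) = (1 + W k y a)⁻¹ := rfl

theorem hgt_tp_pos (k : ℕ) (y : Dir) (a b : Fin 4) (hb : om b = 0) :
    0 < hgt (tp k y a b hb) := by
  rw [hgt_tp]
  have := W_nonneg k y a
  positivity

theorem dir_tp (k : ℕ) (y : Dir) (a b : Fin 4) (hb : om b = 0) :
    dir (tp k y a b hb) = cc k y a b := dir_mk _ _ _ _ (hgt_tp_pos k y a b hb)

theorem tp_top (k : ℕ) (y : Dir) (a b : Fin 4) (hb : om b = 0) : IsTop (tp k y a b hb) := by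
  refine ⟨hgt_tp_pos k y a b hb, fun q hq hd => ?_⟩
  have h1 := hgt_bound q (k + 1)
  rw [hd, dir_tp, S_cc hb le_rfl] at h1
  rw [hgt_tp, le_inv_comm₀ hq (by have := W_nonneg k y a; linarith)]
  rw [le_inv_comm₀ (by have := W_nonneg k y a; linarith) hq]
  rw [← one_div, le_div_iff₀ (by have := W_nonneg k y a; linarith)]
  exact h1

theorem dist_mk_le {p q : L} (h : hgt p = hgt q) : dist p q ≤ |emb (dir p) - emb (dir q)| := by
  show dist p.1 q.1 ≤ _
  rw [Prod.dist_eq]
  refine max_le ?_ ?_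
  · have : p.1.1 = q.1.1 := h
    rw [this, dist_self]; positivity
  · rw [snd_eq, snd_eq, h, Real.dist_eq, ← mul_sub, abs_mul, abs_of_nonneg (hgt_nonneg q)]
    have h1 := hgt_le_one q
    have h2 := abs_nonneg (emb (dir p) - emb (dir q))
    nlinarith

theorem dist_tp_le (k : ℕ) (y : Dir) (a a' b b' : Fin 4) (hb : om b = 0) (hb' : om b' = 0)
    (ha : om a = om a') : dist (tp k y a b hb) (tp k y a' b' hb') ≤ ((5 : ℝ) ^ k)⁻¹ := by
  refine (dist_mk_le ?_).trans ?_
  · rw [hgt_tp, hgt_tp, W, W, ha]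
  · rw [dir_tp, dir_tp]
    refine emb_dist fun i hi => ?_
    rw [cc_lt hi, cc_lt hi]

theorem tp_congr {k : ℕ} {y y' : Dir} {a b : Fin 4} {hb : om b = 0} (h : ∀ i < k, y i = y' i) :
    tp k y a b hb = tp k y' a b hb := by
  refine ext' ?_ ?_
  · rw [hgt_tp, hgt_tp, W, W, S_congr h]
  · rw [dir_tp, dir_tp, cc_congr h]

theorem om_zero : om 0 = 0 := by simp [om]
theorem om_one : om 1 = 1 := by simp [om]
theorem om_two : om 2 = 1 := by simp [om]
theorem om_three : om 3 = 0 := by
  unfold om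
  rw [if_neg]
  decide

theorem S_ones (n : ℕ) : S n (fun _ => 1) = ∑ i ∈ Finset.range n, 1 / ((i : ℝ) + 1) := by
  simp [S, om_one]

theorem S_tail_tendsto (N : ℕ) (x : Dir) :
    Tendsto (fun n => S n (fun i => if i < N then x i else 1)) atTop atTop := by
  have h1 : Tendsto (fun n => ∑ i ∈ Finset.range n, 1 / ((i : ℝ) + 1)) atTop atTop :=
    Real.tendsto_sum_range_one_div_nat_succ_atTop
  refine tendsto_atTop_mono (f := fun n => (∑ i ∈ Finset.range n, 1 / ((i : ℝ) + 1)) +
    (- ∑ i ∈ Finset.range N, 1 / ((i : ℝ) + 1))) ?_ (tendsto_atTop_add_const_right _ _ h1)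
  intro n
  have h2 : ∀ n, (∑ i ∈ Finset.range n, 1 / ((i : ℝ) + 1)) - (∑ i ∈ Finset.range N, 1 / ((i : ℝ) + 1))
      ≤ S n (fun i => if i < N then x i else 1) := by
    intro n
    rcases le_total n N with h | h
    · have h3 : ∑ i ∈ Finset.range n, 1 / ((i : ℝ) + 1) ≤ ∑ i ∈ Finset.range N, 1 / ((i : ℝ) + 1) := by
        refine Finset.sum_le_sum_of_subset_of_nonneg ?_ fun i _ _ => by positivity
        exact Finset.range_subset_range.mpr h
      have h4 := S_nonneg n (fun i => if i < N then x i else 1)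
      linarith
    · induction n, h using Nat.le_induction with
      | base =>
        have h4 := S_nonneg N (fun i => if i < N then x i else 1)
        linarith
      | succ n hn ih =>
        rw [S_succ, Finset.sum_range_succ]
        have : om (if n < N then x n else 1) = 1 := by
          rw [if_neg (by omega)]; exact om_one
        rw [this]
        linarith
  have := h2 n
  simpa [sub_eq_add_neg] using this

theorem inv_sub_inv_le {s t : ℝ} (hs : 0 ≤ s) (ht : 0 ≤ t) :
    |(1 + s)⁻¹ - (1 + t)⁻¹| ≤ |s - t| := by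
  have h1 : (1 + s)⁻¹ - (1 + t)⁻¹ = (t - s) * ((1 + s)⁻¹ * (1 + t)⁻¹) := by
    field_simp; ring
  rw [h1, abs_mul, abs_sub_comm t s]
  have h2 : |(1 + s)⁻¹ * (1 + t)⁻¹| ≤ 1 := by
    rw [abs_of_nonneg (by positivity)]
    have h3 : (1 + s)⁻¹ ≤ 1 := inv_le_one_of_one_le₀ (by linarith)
    have h4 : (1 + t)⁻¹ ≤ 1 := inv_le_one_of_one_le₀ (by linarith)
    have h5 : 0 ≤ (1 + s)⁻¹ := by positivity
    have h6 : 0 ≤ (1 + t)⁻¹ := by positivity
    nlinarith
  have h3 := abs_nonneg (s - t)
  nlinarith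

/-- density of the endpoints `tp k y 1 0` -/
theorem dense_tp (p : L) {ε : ℝ} (hε : 0 < ε) (K : ℕ) :
    ∃ k, K ≤ k ∧ ∃ y : Dir, dist p (tp k y 1 0 om_zero) < ε := by
  rcases (hgt_nonneg p).lt_or_eq with hp | hp
  · set h := hgt p with hh
    set x := dir p with hx
    set σ := h⁻¹ - 1 with hσ
    have hσS : ∀ n, S n x ≤ σ := by
      intro n
      have h1 := hgt_bound p n
      rw [← hh, ← hx] at h1
      have h2 : 1 + S n x ≤ h⁻¹ := by
        rw [← one_div, le_div_iff₀ hp]; linarith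
      linarith
    have hσ0 : 0 ≤ σ := by have := hσS 0; rwa [S_zero] at this
    obtain ⟨N1, hN1⟩ := exists_nat_one_div_lt (show (0 : ℝ) < ε / 4 by positivity)
    obtain ⟨N2, hN2⟩ := exists_pow_lt_of_lt_one (show (0 : ℝ) < ε / 4 by positivity)
      (show (1 / 5 : ℝ) < 1 by norm_num)
    set N := max K (max N1 N2) with hN
    have hNK : K ≤ N := le_max_left _ _
    have hNN1 : N1 ≤ N := (le_max_left _ _).trans (le_max_right _ _)
    have hNN2 : N2 ≤ N := (le_max_right _ _).trans (le_max_right _ _)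
    have hN1' : 1 / ((N : ℝ) + 1) < ε / 4 := by
      refine lt_of_le_of_lt ?_ hN1
      have : (N1 : ℝ) ≤ N := by exact_mod_cast hNN1
      gcongr
    have hN2' : ((5 : ℝ) ^ N)⁻¹ < ε / 4 := by
      refine lt_of_le_of_lt ?_ hN2
      rw [one_div, inv_pow]
      have : (5 : ℝ) ^ N2 ≤ 5 ^ N := pow_le_pow_right₀ (by norm_num) hNN2
      gcongr
    set y : Dir := fun i => if i < N then x i else 1 with hy
    have hex : ∃ k, N ≤ k ∧ σ ≤ S (k + 1) y := by
      obtain ⟨k0, hk0⟩ := (tendsto_atTop.mp (S_tail_tendsto N x) σ).exists_forall_of_atTop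
      refine ⟨max N k0, le_max_left _ _, hk0 _ ?_⟩
      exact (le_max_right N k0).trans (Nat.le_succ _)
    classical
    set k := Nat.find hex with hk
    obtain ⟨hk1, hk2⟩ : N ≤ k ∧ σ ≤ S (k + 1) y := Nat.find_spec hex
    have hSy : ∀ n, n ≤ N → S n y = S n x := fun n hn => S_congr fun i hi => by
      simp only [hy]; rw [if_pos (by omega)]
    have hyk : ∀ n, N ≤ n → y n = 1 := fun n hn => by
      simp only [hy]; rw [if_neg (by omega)]
    have hk3 : S (k + 1) y ≤ σ + 1 / ((N : ℝ) + 1) := by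
      rw [S_succ, hyk k hk1, om_one]
      have hkN : 1 / ((k : ℝ) + 1) ≤ 1 / ((N : ℝ) + 1) := by
        have : (N : ℝ) ≤ k := by exact_mod_cast hk1
        gcongr
      rcases hk1.lt_or_eq with h1 | h1
      · have h2 := Nat.find_min hex (m := k - 1) (by omega)
        push Not at h2
        have h3 := h2 (by omega)
        rw [show k - 1 + 1 = k by omega] at h3
        linarith
      · rw [← h1, hSy N le_rfl]
        have := hσS N
        linarith
    have hW : W k y 1 = S (k + 1) y := by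
      rw [W, S_succ, hyk k hk1]
    refine ⟨k, hNK.trans hk1, y, ?_⟩
    set t := hgt (tp k y 1 0 om_zero) with ht
    have ht1 : t = (1 + S (k + 1) y)⁻¹ := by rw [ht, hgt_tp, hW]
    have hh1 : h = (1 + σ)⁻¹ := by rw [hσ]; simp
    have htd : |h - t| < ε / 4 := by
      rw [hh1, ht1]
      refine lt_of_le_of_lt (inv_sub_inv_le hσ0 (S_nonneg _ _)) ?_
      rw [abs_lt]
      constructor <;> linarith [hN1']
    have hemb : |emb x - emb (cc k y 1 0)| ≤ ((5 : ℝ) ^ N)⁻¹ := by
      refine emb_dist fun i hi => ?_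
      rw [cc_lt (by omega)]
      simp only [hy]; rw [if_pos hi]
    show dist p.1 (tp k y 1 0 om_zero).1 < ε
    rw [Prod.dist_eq]
    refine max_lt ?_ ?_
    · rw [Real.dist_eq]
      have : |h - t| < ε := by linarith
      exact this
    · rw [snd_eq, snd_eq, dir_tp, ← hh, ← hx, ← ht, Real.dist_eq]
      have h5 : h * emb x - t * emb (cc k y 1 0)
          = (h - t) * emb x + t * (emb x - emb (cc k y 1 0)) := by ring
      have ht0 : 0 ≤ t := hgt_nonneg _
      have ht2 : t ≤ 1 := hgt_le_one _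
      rw [h5]
      refine lt_of_le_of_lt (abs_add_le _ _) ?_
      rw [abs_mul, abs_mul, abs_of_nonneg (emb_nonneg x), abs_of_nonneg ht0]
      have h6 := emb_nonneg x
      have h7 := emb_le_one x
      have h8 := abs_nonneg (h - t)
      have h9 := abs_nonneg (emb x - emb (cc k y 1 0))
      nlinarith
  · have hpv : p = v := eq_v hp.symm
    subst hpv
    have h1 := S_tail_tendsto 0 (fun _ => 1)
    simp only [Nat.not_lt_zero, if_false] at h1
    obtain ⟨k0, hk0⟩ := (tendsto_atTop.mp h1 (1 / ε)).exists_forall_of_atTop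
    refine ⟨max K k0, le_max_left _ _, fun _ => 1, ?_⟩
    set k := max K k0 with hk
    have hW : W k (fun _ => 1) 1 = S (k + 1) (fun _ => 1) := by rw [W, S_succ]
    have h2 : 1 / ε ≤ S (k + 1) (fun _ => 1) := hk0 _ ((le_max_right K k0).trans (Nat.le_succ _))
    have h3 : hgt (tp k (fun _ => 1) 1 0 om_zero) < ε := by
      rw [hgt_tp, hW, inv_lt_comm₀ (by have := S_nonneg (k + 1) (fun _ => 1); linarith) hε,
        ← one_div]
      linarith
    show dist v.1 (tp k (fun _ => 1) 1 0 om_zero).1 < ε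
    rw [Prod.dist_eq]
    have h4 := hgt_nonneg (tp k (fun _ => 1) 1 0 om_zero)
    refine max_lt ?_ ?_
    · show dist (0 : ℝ) (hgt (tp k (fun _ => 1) 1 0 om_zero)) < ε
      rw [Real.dist_eq, zero_sub, abs_neg, abs_of_nonneg h4]
      exact h3
    · rw [snd_eq, snd_eq, hgt_v, zero_mul, Real.dist_eq, zero_sub, abs_neg, abs_of_nonneg
        (mul_nonneg h4 (emb_nonneg _))]
      have h5 := emb_nonneg (dir (tp k (fun _ => 1) 1 0 om_zero))
      have h6 := emb_le_one (dir (tp k (fun _ => 1) 1 0 om_zero))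
      nlinarith

end Pool.Agent.Lelek
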