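import Pool.Agent.Lib.MP_211c6f_gt.Good

set_option autoImplicit false
open Filter Topology Set

namespace Pool.Agent.Lelek

/-- extension of a binary word -/
def ext2 (s : Wd Bool) : Dir := fun n => if h : n < s.1 then (if s.2 ⟨n, h⟩ then 3 else 0) else 0

noncomputable def A2 (s : Wd Bool) : L := tp s.1 (ext2 s) 0 3 om_three
noncomputable def B2 (s : Wd Bool) : L := tp s.1 (ext2 s) 3 0 om_zero

theorem dir_A2 (s : Wd Bool) : dir (A2 s) = cc s.1 (ext2 s) 0 3 := dir_tp _ _ _ _ _
theorem dir_B2 (s : Wd Bool) : dir (B2 s) = cc s.1 (ext2 s) 3 0 := dir_tp _ _ _ _ _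

theorem word_eq2 {s s' : Wd Bool} (h : s.1 = s'.1) (h' : ∀ i < s.1, ext2 s i = ext2 s' i) :
    s = s' := by
  obtain ⟨k, f⟩ := s
  obtain ⟨k', g⟩ := s'
  simp only at h
  subst h
  refine wd_ext fun i hi => ?_
  have := h' i hi
  simp only [ext2, hi, dif_pos] at this
  cases h1 : f ⟨i, hi⟩ <;> cases h2 : g ⟨i, hi⟩ <;> simp_all

theorem dirA2_inj {s s' : Wd Bool} (h : dir (A2 s) = dir (A2 s')) : s = s' := by
  rw [dir_A2, dir_A2] at h
  obtain ⟨h1, _, h2⟩ := cc_inj (by decide) (by decide) h
  exact word_eq2 h1 h2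

theorem dirB2_inj {s s' : Wd Bool} (h : dir (B2 s) = dir (B2 s')) : s = s' := by
  rw [dir_B2, dir_B2] at h
  obtain ⟨h1, _, h2⟩ := cc_inj (by decide) (by decide) h
  exact word_eq2 h1 h2

theorem dirA2B2_ne (s s' : Wd Bool) : dir (A2 s) ≠ dir (B2 s') := by
  rw [dir_A2, dir_B2]; exact cc_ne_tail (by decide)

theorem dirA2A_ne (s : Wd Bool) (s' : Wd (Fin 4)) : dir (A2 s) ≠ dir (A s') := by
  rw [dir_A2, dir_A]; exact cc_ne_tail (by decide)

theorem dirA2B_ne (s : Wd Bool) (s' : Wd (Fin 4)) : dir (A2 s) ≠ dir (B s') := by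
  rw [dir_A2, dir_B]; exact cc_ne_tail (by decide)

theorem dirB2A_ne (s : Wd Bool) (s' : Wd (Fin 4)) : dir (B2 s) ≠ dir (A s') := by
  rw [dir_B2, dir_A]
  intro h
  exact absurd (cc_inj (by decide) (by decide) h).2.1 (by decide)

theorem dirB2B_ne (s : Wd Bool) (s' : Wd (Fin 4)) : dir (B2 s) ≠ dir (B s') := by
  rw [dir_B2, dir_B]
  intro h
  exact absurd (cc_inj (by decide) (by decide) h).2.1 (by decide)

/-- index type of the second pairing -/
abbrev Ix : Type := Wd (Fin 4) ⊕ Wd Bool

noncomputable def A' : Ix → L := Sum.elim A A2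
noncomputable def B' : Ix → L := Sum.elim B B2

theorem dirA'_inj {s s' : Ix} (h : dir (A' s) = dir (A' s')) : s = s' := by
  rcases s with s | s <;> rcases s' with s' | s'
  · rw [dirA_inj h]
  · exact absurd h.symm (dirA2A_ne _ _)
  · exact absurd h (dirA2A_ne _ _)
  · rw [dirA2_inj h]

theorem dirB'_inj {s s' : Ix} (h : dir (B' s) = dir (B' s')) : s = s' := by
  rcases s with s | s <;> rcases s' with s' | s'
  · rw [dirB_inj h]
  · exact absurd h.symm (dirB2B_ne _ _)
  · exact absurd h (dirB2B_ne _ _)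
  · rw [dirB2_inj h]

theorem dirA'B'_ne (s s' : Ix) : dir (A' s) ≠ dir (B' s') := by
  rcases s with s | s <;> rcases s' with s' | s'
  · exact dirAB_ne _ _
  · exact fun h => dirB2A_ne _ _ h.symm
  · exact dirA2B_ne _ _
  · exact dirA2B2_ne _ _

theorem A'_inj : Function.Injective A' := fun _ _ h => dirA'_inj (congrArg dir h)
theorem B'_inj : Function.Injective B' := fun _ _ h => dirB'_inj (congrArg dir h)
theorem A'B'_disj : Disjoint (range A') (range B') := by
  rw [Set.disjoint_left]
  rintro _ ⟨s, rfl⟩ ⟨s', h⟩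
  exact dirA'B'_ne s s' (congrArg dir h.symm)

theorem A2_top (s : Wd Bool) : IsTop (A2 s) := tp_top _ _ _ _ _
theorem B2_top (s : Wd Bool) : IsTop (B2 s) := tp_top _ _ _ _ _

theorem A'_top (s : Ix) : IsTop (A' s) := by
  rcases s with s | s
  · exact A_top s
  · exact A2_top s

theorem B'_top (s : Ix) : IsTop (B' s) := by
  rcases s with s | s
  · exact B_top s
  · exact B2_top s

theorem A'_dense : Dense (range A') := A_dense.mono (by
  rintro _ ⟨s, rfl⟩; exact ⟨Sum.inl s, rfl⟩)
theorem B'_dense : Dense (range B') := B_dense.mono (by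
  rintro _ ⟨s, rfl⟩; exact ⟨Sum.inl s, rfl⟩)

theorem dist_A'B'_tendsto : Tendsto (fun s => dist (A' s) (B' s)) cofinite (𝓝 0) := by
  rw [Metric.tendsto_nhds]
  intro ε hε
  have h1 := (Metric.tendsto_nhds.mp dist_AB_tendsto) ε hε
  have h2 : Tendsto (fun s => dist (A2 s) (B2 s)) cofinite (𝓝 0) := by
    refine squeeze_zero (fun _ => dist_nonneg) (fun s => ?_) tendsto_len
    exact dist_tp_le _ _ _ _ _ _ _ _ (by rw [om_zero, om_three])
  have h3 := (Metric.tendsto_nhds.mp h2) ε hε
  rw [Filter.eventually_cofinite] at h1 h3 ⊢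
  refine ((h1.image Sum.inl).union (h3.image Sum.inr)).subset ?_
  rintro (s | s) hs
  · exact Or.inl ⟨s, hs, rfl⟩
  · exact Or.inr ⟨s, hs, rfl⟩

/-- The second equivalence relation. -/
noncomputable def Dw : Setoid L := pset A'_inj B'_inj A'B'_disj

theorem Dw_closed : IsClosed {p : L × L | Dw.r p.1 p.2} := isClosed_prel dist_A'B'_tendsto

instance : T2Space (Quotient Dw) := t2_of_closedRel Dw_closed

/-- quotient map -/
noncomputable def qw : L → Quotient Dw := Quotient.mk Dw

theorem qw_cont : Continuous qw := continuous_quotient_mk'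

theorem qw_eq {p q : L} : qw p = qw q ↔ prel A' B' p q := by
  constructor
  · intro h; exact Quotient.exact h
  · intro h; exact Quotient.sound h

theorem qw_not_top {p q : L} (hp : ¬ IsTop p) (h : qw p = qw q) : p = q := by
  rcases qw_eq.mp h with h | ⟨s, ⟨h, _⟩ | ⟨h, _⟩⟩
  · exact h
  · exact absurd (h ▸ A'_top s) hp
  · exact absurd (h ▸ B'_top s) hp

/-- points of height one over `{0,3}` sequences, and below -/
theorem S_03 {x : Dir} (hx : ∀ n, x n = 0 ∨ x n = 3) (n : ℕ) : S n x = 0 := by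
  refine Finset.sum_eq_zero fun i _ => ?_
  rcases hx i with h | h
  · rw [h, om_zero]; simp
  · rw [h, om_three]; simp

noncomputable def one3 (x : Dir) (hx : ∀ n, x n = 0 ∨ x n = 3) : L :=
  mk x 1 zero_le_one (fun n => by rw [S_03 hx]; simp)

theorem dir_one3 (x : Dir) (hx : ∀ n, x n = 0 ∨ x n = 3) : dir (one3 x hx) = x :=
  dir_mk _ _ _ _ one_pos

theorem hgt_one3 (x : Dir) (hx : ∀ n, x n = 0 ∨ x n = 3) : hgt (one3 x hx) = 1 := rfl

theorem not_top_sc {x : Dir} (hx : ∀ n, x n = 0 ∨ x n = 3) {r : unitInterval} (hr : (r : ℝ) < 1) :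
    ¬ IsTop (sc r (one3 x hx)) := by
  rintro ⟨h1, h2⟩
  have h3 := h2 (one3 x hx) (by rw [hgt_one3]; exact one_pos) (by
    rw [dir_sc]; rwa [hgt_sc] at h1)
  rw [hgt_one3, hgt_sc, hgt_one3] at h3
  linarith

theorem not_top_v : ¬ IsTop v := fun h => by have := h.1; simp at this

/-- half scaling of the unit interval -/
noncomputable def hf (r : unitInterval) : unitInterval :=
  ⟨(r : ℝ) / 2, by have := r.2.1; positivity, by have := r.2.2; linarith⟩

theorem hf_cont : Continuous hf :=
  Continuous.subtype_mk (continuous_subtype_val.div_const 2) _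

theorem hf_lt (r : unitInterval) : (hf r : ℝ) < 1 := by
  show (r : ℝ) / 2 < 1
  have := r.2.2; linarith

theorem hf_inj : Function.Injective hf := by
  intro r s h
  have : (r : ℝ) / 2 = s / 2 := congrArg Subtype.val h
  exact Subtype.ext (by linarith)

theorem hf_zero : hf 0 = 0 := Subtype.ext (by simp [hf])

/-- three directions -/
def d3 (i : Fin 3) : Dir := if i = 0 then 0 else if i = 1 then (fun _ => 3) else cc 0 0 0 3

theorem d3_03 (i : Fin 3) (n : ℕ) : d3 i n = 0 ∨ d3 i n = 3 := by
  unfold d3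
  split_ifs
  · left; rfl
  · right; rfl
  · rcases Nat.eq_zero_or_pos n with rfl | h
    · left; rfl
    · right; exact cc_gt h

theorem d3_inj : Function.Injective d3 := by
  have h01 : d3 0 ≠ d3 1 := fun h => absurd (congrFun h 0) (by decide)
  have h02 : d3 0 ≠ d3 2 := fun h => absurd (congrFun h 1) (by decide)
  have h12 : d3 1 ≠ d3 2 := fun h => absurd (congrFun h 0) (by decide)
  intro i j h
  fin_cases i <;> fin_cases j
  · rfl
  · exact absurd h h01
  · exact absurd h h02
  · exact absurd h.symm h01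
  · rfl
  · exact absurd h h12
  · exact absurd h.symm h02
  · exact absurd h.symm h12
  · rfl

theorem sc_eq_imp {x y : Dir} (hx : ∀ n, x n = 0 ∨ x n = 3) (hy : ∀ n, y n = 0 ∨ y n = 3)
    {r s : unitInterval} (h : sc r (one3 x hx) = sc s (one3 y hy)) :
    r = s ∧ (x = y ∨ r = 0) := by
  have h1 : (r : ℝ) * 1 = s * 1 := congrArg hgt h
  have h2 : r = s := Subtype.ext (by linarith)
  refine ⟨h2, ?_⟩
  rcases r.2.1.lt_or_eq with h0 | h0
  · left
    have e1 : dir (sc r (one3 x hx)) = x := by
      rw [dir_sc (by rw [hgt_one3]; linarith), dir_one3]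
    have e2 : dir (sc s (one3 y hy)) = y := by
      rw [dir_sc (by rw [hgt_one3, ← h2]; linarith), dir_one3]
    rw [← e1, ← e2, h]
  · right; exact Subtype.ext h0.symm

theorem ram_of_q {Y : Type*} [TopologicalSpace Y] {q : L → Y} (hc : Continuous q)
    (hq : ∀ p p' : L, ¬ IsTop p → q p = q p' → p = p') : Ram (q v) := by
  refine ⟨fun i r => q (sc (hf r) (one3 (d3 i) (d3_03 i))), fun i => ⟨?_, ?_, ?_⟩, ?_⟩
  · exact hc.comp ((sc_cont _).comp hf_cont)
  · intro r s h
    have h1 := hq _ _ (not_top_sc (d3_03 i) (hf_lt r)) h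
    exact hf_inj (sc_eq_imp _ _ h1).1
  · show q (sc (hf 0) _) = q v
    rw [hf_zero, sc_zero]
  · intro i j hij
    ext z
    constructor
    · rintro ⟨⟨r, rfl⟩, ⟨s, hs⟩⟩
      have h1 := hq _ _ (not_top_sc (d3_03 j) (hf_lt s)) hs
      obtain ⟨h2, h3 | h3⟩ := sc_eq_imp _ _ h1
      · exact absurd (d3_inj h3).symm hij
      · show q (sc (hf r) _) = q v
        rw [← h2, h3, sc_zero]
    · rintro rfl
      exact ⟨⟨0, by show q (sc (hf 0) _) = q v; rw [hf_zero, sc_zero]⟩,
        ⟨0, by show q (sc (hf 0) _) = q v; rw [hf_zero, sc_zero]⟩⟩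

/-- binary sequences -/
abbrev Bin := ℕ → Fin 2

def kap (x : Bin) : Dir := fun n => if x n = 1 then 3 else 0

theorem kap_03 (x : Bin) (n : ℕ) : kap x n = 0 ∨ kap x n = 3 := by
  unfold kap; split_ifs <;> simp

theorem kap_inj : Function.Injective kap := by
  intro x y h
  funext n
  have := congrFun h n
  simp only [kap] at this
  have hx : x n = 0 ∨ x n = 1 := by omega
  have hy : y n = 0 ∨ y n = 1 := by omega
  rcases hx with hx | hx <;> rcases hy with hy | hy <;> simp_all

theorem kap_cont : Continuous kap := by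
  refine continuous_pi fun n => ?_
  exact (continuous_of_discreteTopology (f := fun a : Fin 2 => if a = 1 then (3 : Fin 4) else 0)).comp
    (continuous_apply n)

noncomputable def KK (x : Bin) : L := one3 (kap x) (kap_03 x)

theorem KK_cont : Continuous KK := by
  refine Continuous.subtype_mk ?_ _
  exact continuous_const.prodMk (continuous_const.mul (emb_cont.comp kap_cont))

noncomputable def bet (x : Bin) : unitInterval :=
  ⟨Real.ofDigits x, Real.ofDigits_nonneg _, Real.ofDigits_le_one _⟩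

theorem bet_cont : Continuous bet := Continuous.subtype_mk Real.continuous_ofDigits _

theorem bet_surj : Function.Surjective bet := by
  intro t
  obtain ⟨x, _, hx⟩ := Real.ofDigits_SurjOn (b := 2) (by norm_num) t.2
  exact ⟨x, Subtype.ext hx⟩

theorem bet_quot : IsQuotientMap bet :=
  bet_cont.isClosedMap.isQuotientMap bet_cont bet_surj

/-- the word of a binary sequence -/
def bw (n : ℕ) (x : Bin) : Wd Bool := ⟨n, fun i => decide (x i = 1)⟩

theorem ext2_bw {n : ℕ} {x : Bin} {i : ℕ} (hi : i < n) : ext2 (bw n x) i = kap x i := by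
  simp [ext2, bw, kap, hi]

theorem qw_KK_aux {x y : Bin} {n : ℕ} (hn : ∀ i < n, x i = y i) (hlt : x n < y n)
    (h : bet x = bet y) : qw (KK x) = qw (KK y) := by
  have h1 := ofDigits_eq_imp (b := 2) (by norm_num) hn hlt (congrArg Subtype.val h)
  have hx0 : x n = 0 := by omega
  have hy1 : y n = 1 := by omega
  have hxt : ∀ i, n < i → x i = 1 := fun i hi => by have := (h1.2 i hi).1; omega
  have hyt : ∀ i, n < i → y i = 0 := fun i hi => by have := (h1.2 i hi).2; omega
  have e1 : KK x = A2 (bw n x) := by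
    refine ext' ?_ ?_
    · rw [KK, hgt_one3, A2, hgt_tp, W]
      have : S (bw n x).1 (ext2 (bw n x)) = 0 := by
        refine S_03 (fun m => ?_) _
        unfold ext2
        split_ifs <;> simp
      rw [this, om_zero]; simp
    · rw [KK, dir_one3, dir_A2]
      funext i
      show kap x i = cc n (ext2 (bw n x)) 0 3 i
      rcases lt_trichotomy i n with hi | hi | hi
      · rw [cc_lt hi, ext2_bw hi]
      · subst hi; rw [cc_self, kap, hx0]; rfl
      · rw [cc_gt hi, kap, hxt i hi]; rfl
  have e2 : KK y = B2 (bw n x) := by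
    refine ext' ?_ ?_
    · rw [KK, hgt_one3, B2, hgt_tp, W]
      have : S (bw n x).1 (ext2 (bw n x)) = 0 := by
        refine S_03 (fun m => ?_) _
        unfold ext2
        split_ifs <;> simp
      rw [this, om_three]; simp
    · rw [KK, dir_one3, dir_B2]
      funext i
      show kap y i = cc n (ext2 (bw n x)) 3 0 i
      rcases lt_trichotomy i n with hi | hi | hi
      · rw [cc_lt hi, ext2_bw hi, kap, kap, hn i hi]
      · subst hi; rw [cc_self, kap, hy1]; rfl
      · rw [cc_gt hi, kap, hyt i hi]; rfl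
  rw [e1, e2]
  exact qw_eq.mpr (Or.inr ⟨Sum.inr (bw n x), Or.inl ⟨rfl, rfl⟩⟩)

theorem qw_KK {x y : Bin} (h : bet x = bet y) : qw (KK x) = qw (KK y) := by
  by_cases hne : x = y
  · rw [hne]
  obtain ⟨n, hn, hd⟩ := exists_first_diff hne
  rcases lt_or_gt_of_ne hd with h1 | h1
  · exact qw_KK_aux hn h1 h
  · exact (qw_KK_aux (fun i hi => (hn i hi).symm) h1 h.symm).symm

theorem bet_pair {x y : Bin} {n : ℕ} (hn : ∀ i < n, x i = y i) (hx : x n = 0) (hy : y n = 1)
    (hxt : ∀ i, n < i → x i = 1) (hyt : ∀ i, n < i → y i = 0) : bet x = bet y := by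
  apply Subtype.ext
  show Real.ofDigits x = Real.ofDigits y
  rw [Real.ofDigits_eq_sum_add_ofDigits x (n + 1), Real.ofDigits_eq_sum_add_ofDigits y (n + 1),
    Finset.sum_range_succ, Finset.sum_range_succ]
  have h0 : ∑ i ∈ Finset.range n, Real.ofDigitsTerm x i
      = ∑ i ∈ Finset.range n, Real.ofDigitsTerm y i :=
    Finset.sum_congr rfl fun i hi ↦ by simp [Real.ofDigitsTerm, hn i (Finset.mem_range.mp hi)]
  have h1 : (fun i => x (i + (n + 1))) = fun _ => (⟨2 - 1, by norm_num⟩ : Fin 2) := by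
    funext i
    rw [hxt _ (by omega)]; rfl
  have h2 : Real.ofDigits (fun i => y (i + (n + 1))) = 0 := by
    have : (fun i => y (i + (n + 1))) = fun _ => (0 : Fin 2) := by
      funext i
      rw [hyt _ (by omega)]
    rw [this]
    simp [Real.ofDigits, Real.ofDigitsTerm]
  rw [h0, h1, h2, Real.ofDigits_const_last_eq_one' (b := 2) (by norm_num)]
  simp [Real.ofDigitsTerm, hx, hy]

theorem KK_qw_aux {x y : Bin} {s : Ix} (h1 : KK x = A' s) (h2 : KK y = B' s) : bet x = bet y := by
  have e1 := congrArg dir h1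
  have e2 := congrArg dir h2
  rw [KK, dir_one3] at e1 e2
  rcases s with s | s
  · exfalso
    have e3 : kap x = cc s.1 (ext1 s) 1 0 := e1.trans (dir_A s)
    have := congrFun e3 s.1
    rw [cc_self] at this
    rcases kap_03 x s.1 with h | h <;> rw [h] at this <;> exact absurd this (by decide)
  · have e3 : kap x = cc s.1 (ext2 s) 0 3 := e1.trans (dir_A2 s)
    have e4 : kap y = cc s.1 (ext2 s) 3 0 := e2.trans (dir_B2 s)
    have kz : ∀ (z : Bin) (i : ℕ), kap z i = 0 → z i = 0 := by
      intro z i h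
      by_contra hc
      have : z i = 1 := by omega
      simp [kap, this] at h
    have ko : ∀ (z : Bin) (i : ℕ), kap z i = 3 → z i = 1 := by
      intro z i h
      by_contra hc
      simp [kap, hc] at h
    refine bet_pair (n := s.1) ?_ (kz _ _ ?_) (ko _ _ ?_) (fun i hi => ko _ _ ?_)
      (fun i hi => kz _ _ ?_)
    · intro i hi
      have h5 : kap x i = kap y i := by rw [e3, e4, cc_lt hi, cc_lt hi]
      rcases kap_03 x i with h6 | h6
      · rw [kz x i h6, kz y i (by rw [← h5, h6])]
      · rw [ko x i h6, ko y i (by rw [← h5, h6])]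
    · rw [e3, cc_self]
    · rw [e4, cc_self]
    · rw [e3, cc_gt hi]
    · rw [e4, cc_gt hi]

theorem KK_qw {x y : Bin} (h : qw (KK x) = qw (KK y)) : bet x = bet y := by
  rcases qw_eq.mp h with h | ⟨s, ⟨h1, h2⟩ | ⟨h1, h2⟩⟩
  · have := congrArg dir h
    rw [KK, KK, dir_one3, dir_one3] at this
    rw [kap_inj this]
  · exact KK_qw_aux h1 h2
  · exact (KK_qw_aux h2 h1).symm

/-- the arc of endpoints -/
noncomputable def JJ (t : unitInterval) : Quotient Dw := qw (KK (bet_surj t).choose)

theorem JJ_bet (x : Bin) : JJ (bet x) = qw (KK x) :=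
  qw_KK (bet_surj (bet x)).choose_spec

theorem JJ_cont : Continuous JJ := by
  rw [bet_quot.continuous_iff]
  have : JJ ∘ bet = qw ∘ KK := funext JJ_bet
  rw [this]
  exact qw_cont.comp KK_cont

theorem JJ_inj : Function.Injective JJ := by
  intro t t' h
  obtain ⟨x, rfl⟩ := bet_surj t
  obtain ⟨y, rfl⟩ := bet_surj t'
  rw [JJ_bet, JJ_bet] at h
  exact KK_qw h

noncomputable def up (r : unitInterval) : unitInterval :=
  ⟨(1 + (r : ℝ)) / 2, by have := r.2.1; positivity, by have := r.2.2; linarith⟩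

noncomputable def dn (r : unitInterval) : unitInterval :=
  ⟨(1 - (r : ℝ)) / 2, by have := r.2.2; linarith, by have := r.2.1; linarith⟩

noncomputable def lg (r : unitInterval) : unitInterval :=
  ⟨1 - (r : ℝ) / 2, by have := r.2.2; linarith, by have := r.2.1; linarith⟩

theorem up_cont : Continuous up :=
  Continuous.subtype_mk ((continuous_const.add continuous_subtype_val).div_const 2) _
theorem dn_cont : Continuous dn :=
  Continuous.subtype_mk ((continuous_const.sub continuous_subtype_val).div_const 2) _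
theorem lg_cont : Continuous lg :=
  Continuous.subtype_mk (continuous_const.sub (continuous_subtype_val.div_const 2)) _

theorem up_inj : Function.Injective up := by
  intro r s h
  have : (1 + (r : ℝ)) / 2 = (1 + (s : ℝ)) / 2 := congrArg Subtype.val h
  exact Subtype.ext (by linarith)
theorem dn_inj : Function.Injective dn := by
  intro r s h
  have : (1 - (r : ℝ)) / 2 = (1 - (s : ℝ)) / 2 := congrArg Subtype.val h
  exact Subtype.ext (by linarith)

theorem up_dn {r s : unitInterval} (h : up r = dn s) : r = 0 ∧ s = 0 := by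
  have : (1 + (r : ℝ)) / 2 = (1 - (s : ℝ)) / 2 := congrArg Subtype.val h
  have h1 := r.2.1
  have h2 := s.2.1
  exact ⟨Subtype.ext (by show (r : ℝ) = 0; linarith), Subtype.ext (by show (s : ℝ) = 0; linarith)⟩

theorem up_zero_dn : up 0 = dn 0 := Subtype.ext (by simp [up, dn])

/-- base sequence -/
noncomputable def x0 : Bin := (bet_surj (up 0)).choose

theorem bet_x0 : bet x0 = up 0 := (bet_surj (up 0)).choose_spec

/-- the second ramification point -/
noncomputable def w0 : Quotient Dw := qw (KK x0)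

theorem JJ_up0 : JJ (up 0) = w0 := by rw [← bet_x0, JJ_bet]; rfl

theorem leg_meets {r t : unitInterval} (h : qw (sc (lg r) (KK x0)) = JJ t) :
    r = 0 := by
  by_contra hr
  have h1 : (lg r : ℝ) < 1 := by
    show 1 - (r : ℝ) / 2 < 1
    have : (0 : ℝ) < r := lt_of_le_of_ne r.2.1 (fun h => hr (Subtype.ext h.symm))
    linarith
  have h2 := qw_not_top (not_top_sc (kap_03 x0) h1) h
  have h3 := congrArg hgt h2
  rw [hgt_sc] at h3
  have h4 : hgt (KK (bet_surj t).choose) = 1 := rfl
  rw [h4, hgt_one3] at h3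
  linarith

theorem leg_inj : Function.Injective fun r => qw (sc (lg r) (KK x0)) := by
  intro r s h
  have key : ∀ r s : unitInterval, (r : ℝ) < s → qw (sc (lg r) (KK x0)) ≠ qw (sc (lg s) (KK x0)) := by
    intro r s hrs h
    have h1 : (lg s : ℝ) < 1 := by
      show 1 - (s : ℝ) / 2 < 1
      have := r.2.1
      linarith
    have h2 := qw_not_top (not_top_sc (kap_03 x0) h1) h.symm
    have h3 := congrArg hgt h2
    rw [hgt_sc, hgt_sc] at h3
    have h4 : hgt (KK x0) = 1 := rfl
    rw [h4, hgt_one3] at h3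
    have h5 : (1 - (s : ℝ) / 2) * 1 = (1 - (r : ℝ) / 2) * 1 := h3
    linarith
  rcases lt_trichotomy (r : ℝ) s with h1 | h1 | h1
  · exact absurd h (key r s h1)
  · exact Subtype.ext h1
  · exact absurd h.symm (key s r h1)

theorem lg_zero : lg 0 = 1 := Subtype.ext (by simp [lg])

theorem ram_w0 : Ram w0 := by
  set γ : Fin 3 → unitInterval → Quotient Dw := fun i r =>
    if i = 0 then JJ (up r) else if i = 1 then JJ (dn r) else qw (sc (lg r) (KK x0)) with hγ
  have g0 : γ 0 = fun r => JJ (up r) := by funext r; simp [hγ]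
  have g1 : γ 1 = fun r => JJ (dn r) := by funext r; simp [hγ]
  have g2 : γ 2 = fun r => qw (sc (lg r) (KK x0)) := by
    funext r; simp only [hγ]; rw [if_neg (by decide), if_neg (by decide)]
  have z0 : γ 0 0 = w0 := by rw [g0]; exact JJ_up0
  have z1 : γ 1 0 = w0 := by
    rw [g1]; show JJ (dn 0) = w0; rw [← up_zero_dn, JJ_up0]
  have z2 : γ 2 0 = w0 := by
    rw [g2]; show qw (sc (lg 0) (KK x0)) = w0; rw [lg_zero, sc_one]; rfl
  have i01 : ∀ r s, γ 0 r = γ 1 s → γ 0 r = w0 := by
    intro r s h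
    rw [g0, g1] at h
    have := (up_dn (JJ_inj h)).1
    rw [this, z0]
  have i02 : ∀ r s, γ 0 r = γ 2 s → γ 0 r = w0 := by
    intro r s h
    have h' := h
    rw [g0, g2] at h'
    have := leg_meets h'.symm
    rw [h, this, z2]
  have i12 : ∀ r s, γ 1 r = γ 2 s → γ 1 r = w0 := by
    intro r s h
    have h' := h
    rw [g1, g2] at h'
    have := leg_meets h'.symm
    rw [h, this, z2]
  have hz : ∀ i, γ i 0 = w0 := by
    intro i; fin_cases i
    · exact z0
    · exact z1
    · exact z2
  have hint : ∀ i j, i ≠ j → ∀ r s, γ i r = γ j s → γ i r = w0 := by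
    intro i j hij r s h
    fin_cases i <;> fin_cases j
    · exact absurd rfl hij
    · exact i01 r s h
    · exact i02 r s h
    · exact h.trans (i01 s r h.symm)
    · exact absurd rfl hij
    · exact i12 r s h
    · exact h.trans (i02 s r h.symm)
    · exact h.trans (i12 s r h.symm)
    · exact absurd rfl hij
  refine ⟨γ, fun i => ⟨?_, ?_, hz i⟩, fun i j hij => ?_⟩
  · fin_cases i
    · show Continuous (γ 0); rw [g0]; exact JJ_cont.comp up_cont
    · show Continuous (γ 1); rw [g1]; exact JJ_cont.comp dn_cont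
    · show Continuous (γ 2); rw [g2]; exact qw_cont.comp ((sc_cont _).comp lg_cont)
  · fin_cases i
    · show Function.Injective (γ 0); rw [g0]; exact JJ_inj.comp up_inj
    · show Function.Injective (γ 1); rw [g1]; exact JJ_inj.comp dn_inj
    · show Function.Injective (γ 2); rw [g2]; exact leg_inj
  · ext z
    constructor
    · rintro ⟨⟨r, rfl⟩, ⟨s, hs⟩⟩
      exact hint i j hij r s hs.symm
    · rintro rfl
      exact ⟨⟨0, hz i⟩, ⟨0, hz j⟩⟩

theorem ram_v_w : Ram (qw v) := ram_of_q qw_cont fun _ _ hp h => qw_not_top hp h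

theorem w0_ne_v : w0 ≠ qw v := by
  intro h
  have h1 : v = KK x0 := qw_not_top not_top_v h.symm
  have h2 := congrArg hgt h1
  have h3 : hgt (KK x0) = 1 := rfl
  rw [h3, hgt_v] at h2
  exact zero_ne_one h2

theorem not_homeo : ¬ Nonempty (Quotient Dw ≃ₜ Quotient Dg) := by
  rintro ⟨f⟩
  have h1 : f (qw v) = qg v := by
    by_contra h
    exact good_not_ram h (ram_v_w.map f)
  have h2 : f w0 = qg v := by
    by_contra h
    exact good_not_ram h (ram_w0.map f)
  exact w0_ne_v (f.injective (h2.trans h1.symm))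

end Pool.Agent.Lelek
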